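import Pool.Agent.Lib.MP_bf4c7f_par.Basic

/-! Number theory: quadratic phases with slowly varying linear part. -/

namespace Pool.Agent.MP_bf4c7f_par

theorem sweep {D w η : ℝ} (hη : 0 < η) (h1 : η ≤ |D|) (h2 : |D| ≤ w) (c α : ℝ) {J : ℕ}
    (hJ : 1 / η + 1 ≤ J) :
    ∃ j : ℕ, j ≤ J ∧ ∃ p : ℤ, α ≤ c + j * D + p ∧ c + j * D + p ≤ α + w := by
  have hD : D ≠ 0 := by
    rintro rfl
    rw [abs_zero] at h1; linarith
  rcases lt_or_gt_of_ne hD with hneg | hpos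
  · -- D < 0
    rw [abs_of_neg hneg] at h1 h2
    have hD' : 0 < -D := by linarith
    set r : ℝ := c + ⌈α - c⌉ - α with hr
    have hr0 : 0 ≤ r := by have := Int.le_ceil (α - c); linarith
    have hr1 : r < 1 := by have := Int.ceil_lt_add_one (α - c); linarith
    have hq : 0 ≤ r / (-D) := by positivity
    have hrD : r / (-D) ≤ 1 / η := by
      rw [div_le_div_iff₀ hD' hη]; nlinarith
    refine ⟨⌊r / (-D)⌋₊, ?_, ⌈α - c⌉, ?_, ?_⟩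
    · have : ((⌊r / (-D)⌋₊ : ℕ) : ℝ) ≤ J := le_trans (Nat.floor_le hq) (by linarith)
      exact_mod_cast this
    · have := Nat.floor_le hq
      have h3 : (⌊r / (-D)⌋₊ : ℝ) * (-D) ≤ r := by
        rw [le_div_iff₀ hD'] at this; exact this
      linarith
    · have := Nat.lt_floor_add_one (r / (-D))
      have h3 : r < ((⌊r / (-D)⌋₊ : ℝ) + 1) * (-D) := by
        rw [div_lt_iff₀ hD'] at this; exact this
      linarith
  · rw [abs_of_pos hpos] at h1 h2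
    set r : ℝ := α - c - ⌊α - c⌋ with hr
    have hr0 : 0 ≤ r := by have := Int.floor_le (α - c); linarith
    have hr1 : r < 1 := by have := Int.lt_floor_add_one (α - c); linarith
    have hq : 0 ≤ r / D := by positivity
    have hrD : r / D ≤ 1 / η := by
      rw [div_le_div_iff₀ hpos hη]; nlinarith
    refine ⟨⌈r / D⌉₊, ?_, ⌊α - c⌋, ?_, ?_⟩
    · have : ((⌈r / D⌉₊ : ℕ) : ℝ) < J + 1 := by
        have := Nat.ceil_lt_add_one hq
        linarith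
      have : ⌈r / D⌉₊ < J + 1 := by exact_mod_cast this
      omega
    · have := Nat.le_ceil (r / D)
      have h3 : r ≤ (⌈r / D⌉₊ : ℝ) * D := by
        rw [div_le_iff₀ hpos] at this; exact this
      linarith
    · have := Nat.ceil_lt_add_one hq
      have h3 : (⌈r / D⌉₊ : ℝ) * D < r + D := by
        have h4 := mul_lt_mul_of_pos_right this hpos
        have e : (r / D + 1) * D = r + D := by field_simp
        rw [e] at h4; exact h4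
      linarith

/-- existence of three good integers `G`, `G + q`, `G + j q + 1` -/
theorem good_pair {h : ℕ} {θ z lo hi κ₁ η : ℝ} {Q J q : ℕ} {p : ℤ} (hη : 0 < η)
    (hq : q ≤ Q) (h1 : η ≤ |2 * h * θ * q - p|) (h2 : |2 * h * θ * q - p| ≤ κ₁)
    (hw : lo + 3 * κ₁ ≤ hi) (hJ : 1 / η + 1 ≤ J) :
    ∃ (G : ℤ) (j : ℕ), j ≤ J ∧ 0 ≤ G + θ ∧ G + θ ≤ 1 + J * Q ∧
      (∃ m : ℤ, lo ≤ m - 2 * z - h * (G + θ) ^ 2 ∧ m - 2 * z - h * (G + θ) ^ 2 ≤ hi) ∧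
      (∃ m : ℤ, lo ≤ m - 2 * z - h * (((G + q : ℤ) : ℝ) + θ) ^ 2 ∧
        m - 2 * z - h * (((G + q : ℤ) : ℝ) + θ) ^ 2 ≤ hi) ∧
      (∃ m : ℤ, lo ≤ m - 2 * z - h * (((G + (j * q + 1 : ℕ) : ℤ) : ℝ) + θ) ^ 2 ∧
        m - 2 * z - h * (((G + (j * q + 1 : ℕ) : ℤ) : ℝ) + θ) ^ 2 ≤ hi) := by
  set D : ℝ := 2 * h * θ * q - p with hD
  have hκ : 0 < κ₁ := by linarith
  obtain ⟨hD1, hD2⟩ := abs_le.mp h2
  set G₀ : ℤ := ⌈-θ⌉ with hG₀
  have hG0 : 0 ≤ G₀ + θ := by have := Int.le_ceil (-θ); linarith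
  have hG1 : G₀ + θ < 1 := by have := Int.ceil_lt_add_one (-θ); linarith
  obtain ⟨j₁, hj₁, p₁, a1, a2⟩ := sweep (D := -D) (w := κ₁) hη (by rw [abs_neg]; exact h1)
    (by rw [abs_neg]; exact h2) (-2 * z - h * (G₀ + θ) ^ 2) (lo + κ₁) hJ
  obtain ⟨j, hj, p₂, b1, b2⟩ := sweep (D := D) (w := κ₁) hη h1 h2 (2 * h * θ) 0 hJ
  have hjq : (j₁ : ℝ) * q ≤ J * Q := by
    have : j₁ * q ≤ J * Q := Nat.mul_le_mul hj₁ hq
    exact_mod_cast this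
  have hjq0 : (0 : ℝ) ≤ (j₁ : ℝ) * q := by positivity
  set G : ℤ := G₀ + j₁ * q with hG
  have hGR : (G : ℝ) = G₀ + j₁ * q := by rw [hG]; push_cast; ring
  set m₀ : ℤ := p₁ + j₁ * p + 2 * h * G₀ * j₁ * q + h * j₁ ^ 2 * q ^ 2 with hm₀
  have e0 : (m₀ : ℝ) - 2 * z - h * (G + θ) ^ 2 =
      -2 * z - h * (G₀ + θ) ^ 2 + j₁ * (-D) + p₁ := by
    rw [hm₀, hGR, hD]; push_cast; ring
  refine ⟨G, j, hj, ?_, ?_, ⟨m₀, ?_, ?_⟩, ⟨m₀ + p + 2 * h * G * q + h * q ^ 2, ?_, ?_⟩,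
    ⟨m₀ + j * p - p₂ + 2 * h * G * (j * q + 1) + h * (j * q + 1) ^ 2, ?_, ?_⟩⟩
  · rw [hGR]; linarith
  · rw [hGR]; linarith
  · rw [e0]; linarith
  · rw [e0]; linarith
  · have e : (((m₀ + p + 2 * h * G * q + h * q ^ 2 : ℤ) : ℝ) - 2 * z
        - h * (((G + q : ℤ) : ℝ) + θ) ^ 2) = (m₀ : ℝ) - 2 * z - h * (G + θ) ^ 2 - D := by
      rw [hD]; push_cast; ring
    rw [e, e0]; linarith
  · have e : (((m₀ + p + 2 * h * G * q + h * q ^ 2 : ℤ) : ℝ) - 2 * z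
        - h * (((G + q : ℤ) : ℝ) + θ) ^ 2) = (m₀ : ℝ) - 2 * z - h * (G + θ) ^ 2 - D := by
      rw [hD]; push_cast; ring
    rw [e, e0]; linarith
  · have e : (((m₀ + j * p - p₂ + 2 * h * G * (j * q + 1) + h * (j * q + 1) ^ 2 : ℤ) : ℝ) - 2 * z
        - h * (((G + (j * q + 1 : ℕ) : ℤ) : ℝ) + θ) ^ 2)
        = (m₀ : ℝ) - 2 * z - h * (G + θ) ^ 2 - (2 * h * θ + j * D + p₂) := by
      rw [hD]; push_cast; ring
    rw [e, e0]; linarith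
  · have e : (((m₀ + j * p - p₂ + 2 * h * G * (j * q + 1) + h * (j * q + 1) ^ 2 : ℤ) : ℝ) - 2 * z
        - h * (((G + (j * q + 1 : ℕ) : ℤ) : ℝ) + θ) ^ 2)
        = (m₀ : ℝ) - 2 * z - h * (G + θ) ^ 2 - (2 * h * θ + j * D + p₂) := by
      rw [hD]; push_cast; ring
    rw [e, e0]; linarith

end Pool.Agent.MP_bf4c7f_par
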