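import Pool.Agent.Lib.MP_bf4c7f_par.LevelTwo
import Pool.Agent.Lib.MP_bf4c7f_par.Sweep

/-! Level two: `par (c + 2) = par c + δ` at every non-resonant `c`. -/

namespace Pool.Agent.MP_bf4c7f_par

open ArithmeticFunction

theorem aux_A (x a b qd jd : ZMod 2) (h1 : x + a = jd) (h2 : a + b = qd) : x + b = jd + qd := by
  revert x a b qd jd; decide

theorem period_two {c₀ : ℕ} {δ : ZMod 2} {Q J q j : ℕ} (hq : q ≤ Q) (hj : j ≤ J)
    (A : ∀ i : ℕ, i ≤ J * Q + 1 → eps (c₀ + i) + eps (c₀ + i + q) = (q : ZMod 2) * δ)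
    (B : eps c₀ + eps (c₀ + (j * q + 1)) = ((j * q + 1 : ℕ) : ZMod 2) * δ) :
    par (c₀ + 2) = par c₀ + δ := by
  have C : ∀ n : ℕ, n ≤ j → eps (c₀ + 1) + eps (c₀ + 1 + n * q) = ((n * q : ℕ) : ZMod 2) * δ := by
    intro n
    induction n with
    | zero => intro _; simp [add_self']
    | succ n ih =>
      intro hn
      have ih' := ih (by omega)
      have hnq : n * q ≤ J * Q := Nat.mul_le_mul (by omega) hq
      have A' := A (1 + n * q) (by omega)
      have e1 : c₀ + (1 + n * q) = c₀ + 1 + n * q := by ring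
      have e2 : c₀ + (1 + n * q) + q = c₀ + 1 + (n + 1) * q := by ring
      rw [e2, e1] at A'
      have := aux_A _ _ _ _ _ ih' A'
      rw [this]
      push_cast
      ring
  have C' := C j le_rfl
  have e3 : c₀ + 1 + j * q = c₀ + (j * q + 1) := by ring
  rw [e3] at C'
  have key : ∀ (x x1 w b δ m : ZMod 2) , x + x1 + w = (m + 1) * δ → x1 + b + w = m * δ →
      b = x + δ := by decide
  apply key (par c₀) (par (c₀ + 1)) (eps (c₀ + (j * q + 1))) (par (c₀ + 2)) δ ((j * q : ℕ) : ZMod 2)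
  · have : eps c₀ = par c₀ + par (c₀ + 1) := rfl
    rw [← this, B]; push_cast; ring
  · have : eps (c₀ + 1) = par (c₀ + 1) + par (c₀ + 2) := rfl
    rw [← this, C']

theorem aux_B (a c c' n m : ZMod 2) (h1 : a + c = n) (h2 : a + c' = m) : c + c' = n + m := by
  revert a c c' n m; decide

theorem level_two_base {z L κ ρ : ℝ} {h : ℕ} {δ : ZMod 2} (P : Pair z L κ ρ h δ)
    {lo hi y T E₂ Z η₁ η₂ η κ₁ d : ℝ} {Q J : ℕ} {S : ℝ}
    (hlo : κ ≤ lo) (hlo' : ρ + κ ≤ lo) (hhi : hi ≤ L - κ) (hhi' : hi ≤ L + ρ - κ)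
    (hy : 0 < y) (hzy : z = h * y ^ 2)
    (hS : S = J * Q + 1) (hQS : (Q : ℝ) ≤ S)
    {c₀ : ℕ} (hE : |(c₀ : ℝ) - y| + 2 * S ≤ E₂) (hEy : E₂ + 2 < y)
    (hT : 2 * S + E₂ ^ 2 / y ≤ T)
    (hd : 4 * S * E₂ / y ≤ d)
    (hZ : 2 * S + d + (T + 2) * (E₂ + 1) / y ≤ Z)
    (hZy : 2 * Z ≤ y)
    (hη₁ : h * ((T + 2) * (E₂ + 1) / y * (2 * Z)) + 2 * h * Z ^ 3 / y ≤ η₁)
    (hη₂ : h * (d * (4 * S + d)) ≤ η₂)
    (hsmall : h * Z * y + h * (h * Z * y + 2 * h * Z ^ 2 + 1) < κ * z)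
    (hw : lo + η₁ + η₂ + 3 * κ₁ ≤ hi - η₁ - η₂)
    (hη : 0 < η) (hJ : 1 / η + 1 ≤ J) {q : ℕ} (hq : q ≤ Q) {p : ℤ}
    (h1 : η ≤ |2 * h * (-(2 * y + (c₀ - y) ^ 2 / y)) * q - p|)
    (h2 : |2 * h * (-(2 * y + (c₀ - y) ^ 2 / y)) * q - p| ≤ κ₁) :
    par (c₀ + 2) = par c₀ + δ := by
  set θ : ℝ := -(2 * y + (c₀ - y) ^ 2 / y) with hθ
  have hS1 : 1 ≤ S := by rw [hS]; have : (0 : ℝ) ≤ (J : ℝ) * Q := by positivity
                         linarith
  have hE0 : 0 ≤ |(c₀ : ℝ) - y| := abs_nonneg _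
  have hE2 : 0 ≤ E₂ := by linarith
  have hd0 : 0 ≤ d := le_trans (by positivity) hd
  have hcy := abs_le.mp (le_refl |(c₀ : ℝ) - y|)
  -- general relation
  have R : ∀ (i t : ℕ) (G : ℤ), (i : ℝ) ≤ S → (t : ℝ) ≤ S → 0 ≤ G + θ → G + θ ≤ S →
      (∃ m : ℤ, lo + η₁ + η₂ ≤ m - 2 * z - h * (G + θ) ^ 2 ∧
        m - 2 * z - h * (G + θ) ^ 2 ≤ hi - η₁ - η₂) →
      (∃ m : ℤ, lo + η₁ + η₂ ≤ m - 2 * z - h * (((G + t : ℤ) : ℝ) + θ) ^ 2 ∧
        m - 2 * z - h * (((G + t : ℤ) : ℝ) + θ) ^ 2 ≤ hi - η₁ - η₂) →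
      eps (c₀ + i) + eps (c₀ + i + t) = (t : ZMod 2) * δ := by
    intro i t G hi' ht' hG0 hG1 hm1 hm2
    -- a = G - 1 - c₀ - i
    have hGy : (G : ℝ) ≥ 2 * y := by
      have h3 : 0 ≤ ((c₀ : ℝ) - y) ^ 2 / y := by positivity
      rw [hθ] at hG0; linarith
    have hapos : (0 : ℝ) < ((G - 1 - c₀ - i : ℤ) : ℝ) := by
      push_cast; linarith [hcy.2]
    have haZ : 0 < G - 1 - c₀ - i := by exact_mod_cast hapos
    obtain ⟨a, ha⟩ := Int.eq_ofNat_of_zero_le haZ.le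
    have haN : 0 < a := by
      have : (0 : ℤ) < (a : ℤ) := by rw [← ha]; exact haZ
      exact_mod_cast this
    have haR : (a : ℝ) = G - 1 - c₀ - i := by
      have : ((a : ℤ) : ℝ) = ((G - 1 - c₀ - i : ℤ) : ℝ) := by rw [ha]
      push_cast at this
      exact this
    have hc₀ : (0 : ℝ) < c₀ := by linarith [hcy.1]
    have hcN : 0 < c₀ := by exact_mod_cast hc₀
    -- one application
    have one : ∀ (s : ℕ) (G' : ℤ), (s : ℝ) ≤ 2 * S → (a : ℝ) + (c₀ + s : ℕ) + 1 = G' →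
        0 ≤ G' + θ → G' + θ ≤ 2 * S →
        (∃ m : ℤ, lo + η₁ + η₂ ≤ m - 2 * z - h * (G' + θ) ^ 2 ∧
          m - 2 * z - h * (G' + θ) ^ 2 ≤ hi - η₁ - η₂) →
        eps a + eps (c₀ + s) = (((c₀ + s : ℕ) - a : ℤ) : ZMod 2) * δ := by
      rintro s G' hs hG' hv0 hv1 ⟨m, hm1, hm2⟩
      have hs0 : (0 : ℝ) ≤ s := by positivity
      have hv : (G' : ℝ) + θ = G' - 2 * y - (c₀ - y) ^ 2 / y := by rw [hθ]; ring
      set v : ℝ := G' + θ with hvdef
      set u : ℝ := (a : ℝ) + (c₀ + s : ℕ) + 1 - 2 * y - (((c₀ + s : ℕ) : ℝ) - y) ^ 2 / y with hu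
      have huv : |u - v| ≤ d := by
        have e : u - v = -(s * ((c₀ - y) + (c₀ + s - y)) / y) := by
          rw [hu, hG', hv]; push_cast; field_simp; ring
        rw [e, abs_neg, abs_div, abs_of_pos hy, abs_mul, abs_of_nonneg hs0]
        refine le_trans ?_ hd
        apply div_le_div_of_nonneg_right _ hy.le
        have t1 : |((c₀ : ℝ) - y) + (c₀ + s - y)| ≤ 2 * E₂ := by
          rw [abs_le]; constructor <;> linarith [hcy.1, hcy.2]
        calc (s : ℝ) * |((c₀ : ℝ) - y) + (c₀ + s - y)| ≤ (2 * S) * (2 * E₂) :=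
              mul_le_mul hs t1 (abs_nonneg _) (by linarith)
          _ = 4 * S * E₂ := by ring
      have hvabs : |v| ≤ 2 * S := by rw [abs_of_nonneg hv0]; exact hv1
      have huabs : |u| ≤ 2 * S + d := by
        have := abs_add_le v (u - v)
        have e : v + (u - v) = u := by ring
        rw [e] at this; linarith
      have hsq : |(h : ℝ) * u ^ 2 - h * v ^ 2| ≤ η₂ := by
        have e : (h : ℝ) * u ^ 2 - h * v ^ 2 = h * ((u - v) * (u + v)) := by ring
        rw [e, abs_mul, abs_of_nonneg (by positivity : (0 : ℝ) ≤ h), abs_mul]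
        refine le_trans ?_ hη₂
        apply mul_le_mul_of_nonneg_left _ (by positivity)
        apply mul_le_mul huv _ (abs_nonneg _) hd0
        have := abs_add_le u v
        linarith
      obtain ⟨q1, q2⟩ := abs_le.mp hsq
      have hc : |(((c₀ + s : ℕ) : ℝ)) - y| ≤ E₂ := by
        push_cast
        rw [abs_le]; constructor <;> linarith [hcy.1, hcy.2]
      have hTT : |(a : ℝ) + (c₀ + s : ℕ) + 1 - 2 * y| ≤ T := by
        have e : (a : ℝ) + (c₀ + s : ℕ) + 1 - 2 * y = v + (c₀ - y) ^ 2 / y := by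
          rw [hG', hv]; ring
        rw [e]
        have h3 : 0 ≤ ((c₀ : ℝ) - y) ^ 2 / y := by positivity
        rw [abs_of_nonneg (by linarith)]
        have h4 : ((c₀ : ℝ) - y) ^ 2 / y ≤ E₂ ^ 2 / y := by
          apply div_le_div_of_nonneg_right _ hy.le
          rw [← sq_abs]
          apply pow_le_pow_left₀ (abs_nonneg _)
          linarith
        linarith
      exact level_two_pair P hlo hlo' hhi hhi' hy hzy haN (by omega) hTT hc (by linarith) hZy hη₁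
        hsmall m (by linarith) (by linarith)
    have hi0 : (0 : ℝ) ≤ i := by positivity
    have ht0 : (0 : ℝ) ≤ t := by positivity
    have o1 := one i G (by linarith) (by rw [haR]; push_cast; ring) hG0 (by linarith) hm1
    have o2 := one (i + t) (G + t) (by push_cast; linarith) (by rw [haR]; push_cast; ring)
      (by push_cast; linarith) (by push_cast; linarith) hm2
    rw [← add_assoc] at o2
    rw [aux_B _ _ _ _ _ o1 o2, ← add_mul]
    congr 1
    push_cast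
    have : ∀ x a t : ZMod 2, x - a + (x + t - a) = t := by decide
    exact this _ _ _
  obtain ⟨G, j, hj, hG0, hG1, g1, g2, g3⟩ := good_pair (h := h) (θ := θ) (z := z)
    (lo := lo + η₁ + η₂) (hi := hi - η₁ - η₂) (κ₁ := κ₁) (η := η) (Q := Q) (J := J) (q := q) (p := p)
    hη hq h1 h2 hw hJ
  have hG1' : G + θ ≤ S := by rw [hS]; linarith
  apply period_two (Q := Q) (J := J) (q := q) (j := j) hq hj
  · intro i hi
    apply R i q G
    · rw [hS]; exact_mod_cast hi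
    · exact le_trans (by exact_mod_cast hq) hQS
    · exact hG0
    · exact hG1'
    · exact g1
    · exact g2
  · have := R 0 (j * q + 1) G (by push_cast; linarith) (by
      rw [hS]
      have : j * q ≤ J * Q := Nat.mul_le_mul hj hq
      exact_mod_cast (by omega : j * q + 1 ≤ J * Q + 1)) hG0 hG1' g1 g3
    simpa using this

end Pool.Agent.MP_bf4c7f_par
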