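import Mathlib

/-! Parity of `Ω` on the intervals `(z^2, z^2 + L z)` and `(z^2 + (h + ρ) z, z^2 + (h + ρ) z + L z)`:
definitions and the level one relation. -/

namespace Pool.Agent.MP_bf4c7f_par

open ArithmeticFunction

/-- `Ω(n)` modulo 2. -/
def par (n : ℕ) : ZMod 2 := (cardFactors n : ZMod 2)

theorem par_mul {m n : ℕ} (hm : m ≠ 0) (hn : n ≠ 0) : par (m * n) = par m + par n := by
  unfold par
  rw [cardFactors_mul hm hn]
  push_cast
  rfl

theorem two_eq_zero' : (2 : ZMod 2) = 0 := by decide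

theorem add_self' (a : ZMod 2) : a + a = 0 := by
  revert a; decide

theorem aux_four (h x y x1 : ZMod 2) : x1 = x + ((h + x + y) + (h + x1 + y)) := by
  revert h x y x1; decide

theorem par_sq {n : ℕ} (hn : n ≠ 0) : par (n * n) = 0 := by
  rw [par_mul hn hn, add_self']

theorem par_two : par 2 = 1 := by
  unfold par
  rw [cardFactors_apply_prime Nat.prime_two]
  rfl

/-- the integers of the open interval `(A, A + ℓ)` -/
def InI (A ℓ : ℝ) (n : ℕ) : Prop := A < n ∧ (n : ℝ) < A + ℓ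

/-- Level one: one pair of consecutive integers. `X = h * X'`, `Y = m - X`,
`ω = m - 2 z - (X - z)^2 / X`. -/
theorem level_one {z L : ℝ} {s s' : ZMod 2} (hz : 0 < z) (hL : L ≤ 1)
    {h : ℕ} (hh : 0 < h) {κ ρ lo hi D F : ℝ} (hκ : 0 < κ)
    (hs : ∀ n, InI (z ^ 2) (L * z) n → par n = s)
    (hs' : ∀ n, InI (z ^ 2 + (h + ρ) * z) (L * z) n → par n = s')
    (hlo : κ ≤ lo) (hlo' : ρ + κ ≤ lo) (hhi : hi ≤ L - κ) (hhi' : hi ≤ L + ρ - κ)
    (X' : ℕ) (hX' : 0 < X') (m : ℤ)
    (hF : F = ((h : ℝ) * X' - z) ^ 2 / ((h : ℝ) * X'))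
    (hD : |(h : ℝ) * X' - z| ≤ D) (hsmall : D + h * (D + F + 1) < κ * z)
    (h1 : lo ≤ m - 2 * z - F) (h2 : m - 2 * z - F ≤ hi) :
    par (X' + 1) = par X' + (s + s') := by
  have hhR : (1 : ℝ) ≤ h := by exact_mod_cast hh
  have hXR : (1 : ℝ) ≤ X' := by exact_mod_cast hX'
  set X : ℝ := (h : ℝ) * X' with hXdef
  have hXpos : 0 < X := by positivity
  have hF0 : 0 ≤ F := by rw [hF]; positivity
  have hD0 : 0 ≤ D := le_trans (abs_nonneg _) hD
  set ω : ℝ := m - 2 * z - F with hω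
  have hω1 : 0 < ω := by linarith
  have hω2 : ω ≤ 1 := by linarith
  have hFX : F * X = (X - z) ^ 2 := by
    rw [hF]; field_simp
  -- Y
  set YR : ℝ := m - X with hYR
  have hYω : YR = ω + F + 2 * z - X := by rw [hYR, hω]; ring
  have hXY : X * YR = z ^ 2 + ω * X := by
    rw [hYω]
    have : X * (ω + F + 2 * z - X) = F * X + ω * X + (2 * z * X - X ^ 2) := by ring
    rw [this, hFX]; ring
  have hYpos : 0 < YR := by
    by_contra hneg
    push Not at hneg
    have : X * YR ≤ 0 := mul_nonpos_of_nonneg_of_nonpos hXpos.le hneg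
    have h3 : 0 < z ^ 2 + ω * X := by positivity
    linarith
  have hYZ : ((m - (h : ℤ) * X' : ℤ) : ℝ) = YR := by
    rw [hYR, hXdef]; push_cast; ring
  have hYZpos : 0 < m - (h : ℤ) * X' := by
    have : (0 : ℝ) < ((m - (h : ℤ) * X' : ℤ) : ℝ) := by rw [hYZ]; exact hYpos
    exact_mod_cast this
  obtain ⟨Y, hY⟩ := Int.eq_ofNat_of_zero_le hYZpos.le
  have hYY : (Y : ℝ) = YR := by
    rw [← hYZ, hY]; simp
  have hYne : Y ≠ 0 := by
    intro h0
    rw [h0] at hY
    simp at hY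
    omega
  -- distance
  obtain ⟨hD1, hD2⟩ := abs_le.mp hD
  have hYz : |YR - z| ≤ D + F + 1 := by
    rw [abs_le, hYω]; constructor <;> linarith
  obtain ⟨hY1, hY2⟩ := abs_le.mp hYz
  have hωX : |ω * X - ω * z| ≤ D := by
    rw [← mul_sub, abs_mul, abs_of_pos hω1]
    calc ω * |X - z| ≤ 1 * D := mul_le_mul hω2 hD (abs_nonneg _) zero_le_one
      _ = D := one_mul D
  obtain ⟨hω3, hω4⟩ := abs_le.mp hωX
  have hhY1 : -(h * (D + F + 1)) ≤ h * (YR - z) := by
    have := mul_le_mul_of_nonneg_left hY1 (le_trans zero_le_one hhR)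
    linarith
  have hhY2 : h * (YR - z) ≤ h * (D + F + 1) :=
    mul_le_mul_of_nonneg_left hY2 (le_trans zero_le_one hhR)
  have hDF : 0 ≤ h * (D + F + 1) := by positivity
  have e1 : ω * z ≥ (ρ + κ) * z := mul_le_mul_of_nonneg_right (by linarith) hz.le
  have e2 : ω * z ≤ (L - κ) * z := mul_le_mul_of_nonneg_right (by linarith) hz.le
  have e3 : ω * z ≤ (L + ρ - κ) * z := mul_le_mul_of_nonneg_right (by linarith) hz.le
  have hin : InI (z ^ 2) (L * z) (h * X' * Y) := by
    constructor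
    · push_cast
      rw [hYY, ← hXdef, hXY]
      have : 0 < ω * X := by positivity
      linarith
    · push_cast
      rw [hYY, ← hXdef, hXY]
      linarith
  have hin' : InI (z ^ 2 + (h + ρ) * z) (L * z) (h * (X' + 1) * Y) := by
    have e : ((h * (X' + 1) * Y : ℕ) : ℝ) = z ^ 2 + ω * X + h * YR := by
      push_cast
      rw [hYY, ← hXY, hXdef]; ring
    constructor
    · rw [e]; linarith
    · rw [e]; linarith
  have p1 := hs _ hin
  have p2 := hs' _ hin'
  have hhne : h ≠ 0 := hh.ne'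
  have hXne : X' ≠ 0 := hX'.ne'
  rw [par_mul (mul_ne_zero hhne hXne) hYne, par_mul hhne hXne] at p1
  rw [par_mul (mul_ne_zero hhne (Nat.succ_ne_zero X')) hYne,
    par_mul hhne (Nat.succ_ne_zero X')] at p2
  rw [aux_four (par h) (par X') (par Y) (par (X' + 1)), p1, p2]

end Pool.Agent.MP_bf4c7f_par
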