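import Pool.Agent.Lib.MP_bf4c7f_par.Basic

/-! Chains of steps of length one and two. -/

namespace Pool.Agent.MP_bf4c7f_par

open ArithmeticFunction

theorem chain_le {A B : ℝ} {δ : ZMod 2}
    (H : ∀ X : ℕ, A ≤ X → (X : ℝ) ≤ B → par (X + 1) = par X + δ)
    (P P' : ℕ) (h : P ≤ P') (h1 : A ≤ P) (h2 : (P' : ℝ) ≤ B) :
    par P' = par P + ((P' - P : ℤ) : ZMod 2) * δ := by
  induction P', h using Nat.le_induction with
  | base => simp
  | succ n hn ih =>
    have h3 : (n : ℝ) ≤ B := by push_cast at h2; linarith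
    have h4 : A ≤ (n : ℝ) := le_trans h1 (by exact_mod_cast hn)
    rw [H n h4 h3, ih h3]
    push_cast
    ring

theorem chain {A B : ℝ} {δ : ZMod 2}
    (H : ∀ X : ℕ, A ≤ X → (X : ℝ) ≤ B → par (X + 1) = par X + δ)
    (P P' : ℕ) (h1 : A ≤ P) (h2 : (P : ℝ) ≤ B) (h3 : A ≤ P') (h4 : (P' : ℝ) ≤ B) :
    par P + par P' = ((P - P' : ℤ) : ZMod 2) * δ := by
  have hneg : ∀ x : ZMod 2, -x = x := by decide
  rcases le_total P P' with h | h
  · rw [chain_le H P P' h h1 h4, ← add_assoc, add_self', zero_add]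
    have : ((P' - P : ℤ) : ZMod 2) = ((P - P' : ℤ) : ZMod 2) := by
      rw [← hneg ((P - P' : ℤ) : ZMod 2)]; push_cast; ring
    rw [this]
  · rw [chain_le H P' P h h3 h2, add_comm (par P') _, add_assoc, add_self', add_zero]


end Pool.Agent.MP_bf4c7f_par
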