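import Pool.Agent.Lib.MP_bf4c7f_par.Full

/-! Final form. -/

namespace Pool.Agent.MP_bf4c7f_par

open ArithmeticFunction

/-- The interval `(a, a + ℓ)` contains integers of both parities of `Ω`. -/
def BothParities (a ℓ : ℝ) : Prop :=
  (∃ m : ℕ, a < m ∧ (m : ℝ) < a + ℓ ∧ Even (cardFactors m)) ∧
  (∃ n : ℕ, a < n ∧ (n : ℝ) < a + ℓ ∧ Odd (cardFactors n))

theorem par_of_even {n : ℕ} (h : Even (cardFactors n)) : par n = 0 := by
  unfold par
  rw [ZMod.natCast_eq_zero_iff]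
  exact h.two_dvd

theorem par_of_odd {n : ℕ} (h : Odd (cardFactors n)) : par n = 1 := by
  unfold par
  obtain ⟨k, hk⟩ := h
  rw [hk]
  push_cast
  rw [two_eq_zero']
  simp

theorem exists_value {a ℓ : ℝ} (hc : ¬ BothParities a ℓ) :
    ∃ s : ZMod 2, ∀ n, InI a ℓ n → par n = s := by
  classical
  by_cases hex : ∃ m : ℕ, a < m ∧ (m : ℝ) < a + ℓ ∧ Even (cardFactors m)
  · refine ⟨0, fun n hn => ?_⟩
    rcases Nat.even_or_odd (cardFactors n) with h | h
    · exact par_of_even h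
    · exact absurd ⟨hex, ⟨n, hn.1, hn.2, h⟩⟩ hc
  · refine ⟨1, fun n hn => ?_⟩
    rcases Nat.even_or_odd (cardFactors n) with h | h
    · exact absurd ⟨n, hn.1, hn.2, h⟩ hex
    · exact par_of_odd h

/-- Division of an interval of constant parity by `n`. -/
theorem scale_value {a ℓ : ℝ} (ha : 0 ≤ a) {n : ℕ} (hn : 0 < n) {s : ZMod 2}
    (hs : ∀ m, InI a ℓ m → par m = s) :
    ∀ j, InI (a / n) (ℓ / n) j → par j = s + par n := by
  intro j hj
  have hnR : (0 : ℝ) < n := by exact_mod_cast hn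
  have hj0 : (0 : ℝ) < j := lt_of_le_of_lt (by positivity) hj.1
  have hj0' : j ≠ 0 := by
    rintro rfl
    simp at hj0
  have h1 : InI a ℓ (n * j) := by
    constructor
    · push_cast
      have := hj.1
      rw [div_lt_iff₀ hnR] at this
      linarith
    · push_cast
      have := hj.2
      have e : a / n + ℓ / n = (a + ℓ) / n := by ring
      rw [e, lt_div_iff₀ hnR] at this
      linarith
  have h2 := hs _ h1
  rw [par_mul hn.ne' hj0'] at h2
  have key : ∀ x y s : ZMod 2, x + y = s → y = s + x := by decide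
  exact key _ _ _ h2

/-- General repulsion. -/
theorem repulsion {r t t' : ℝ} (hr : 24000 ^ 8 * 73984 ^ 18 * 3 ^ 62 ≤ r) (ht : t = r ^ 1000)
    {n : ℕ} (hn : 0 < n) (hnr : (n : ℝ) ≤ r ^ 10)
    (hd : |t' - t - Real.sqrt (n * t)| ≤ r ^ 498 / 2) :
    BothParities t (r ^ 498) ∨ BothParities t' (r ^ 498) := by
  by_contra hcon
  push Not at hcon
  obtain ⟨s, hs⟩ := exists_value hcon.1
  obtain ⟨s', hs'⟩ := exists_value hcon.2
  have hr1 : 100 ≤ r := le_trans (by norm_num) hr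
  have hr0 : 0 < r := by linarith
  have ht0 : 0 < t := by rw [ht]; positivity
  have hnR : (1 : ℝ) ≤ n := by exact_mod_cast hn
  have hn0 : (0 : ℝ) < n := by linarith
  -- σ = √(n t)
  set σ : ℝ := Real.sqrt (n * t) with hσ
  have hσ0 : 0 < σ := Real.sqrt_pos.mpr (by positivity)
  have hσ2 : σ ^ 2 = n * t := Real.sq_sqrt (by positivity)
  have hσ1 : r ^ 500 ≤ σ := by
    apply Real.le_sqrt_of_sq_le
    rw [← pow_mul, ← ht]
    nlinarith
  have hσ3 : σ ≤ r ^ 505 := by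
    rw [hσ, Real.sqrt_le_left (by positivity), ht]
    calc (n : ℝ) * r ^ 1000 ≤ r ^ 10 * r ^ 1000 :=
          mul_le_mul_of_nonneg_right hnr (by positivity)
      _ = (r ^ 505) ^ 2 := by ring
  -- z = √(t / n)
  set z : ℝ := Real.sqrt (t / n) with hz
  have hz0 : 0 < z := Real.sqrt_pos.mpr (by positivity)
  have hz2 : z ^ 2 = t / n := Real.sq_sqrt (by positivity)
  have hnz : n * z = σ := by
    rw [hσ]
    symm
    rw [Real.sqrt_eq_iff_mul_self_eq (by positivity) (by positivity)]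
    have : n * z * (n * z) = n * n * z ^ 2 := by ring
    rw [this, hz2]
    field_simp
  have hz495 : r ^ 495 ≤ z := by
    apply Real.le_sqrt_of_sq_le
    rw [← pow_mul, le_div_iff₀ hn0, ht]
    calc r ^ (495 * 2) * n ≤ r ^ (495 * 2) * r ^ 10 :=
          mul_le_mul_of_nonneg_left hnr (by positivity)
      _ = r ^ 1000 := by rw [← pow_add]
  -- L and ρ
  set L : ℝ := r ^ 498 / σ with hL
  have hL0 : 0 < L := by positivity
  have hLz : L * z = r ^ 498 / n := by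
    rw [hL, ← hnz]; field_simp
  have hL1 : L ≤ 1 := by
    rw [hL, div_le_one hσ0]
    exact le_trans (pow_le_pow_right₀ (by linarith) (by norm_num)) hσ1
  set ρ : ℝ := (t' - t - σ) / σ with hρ
  have hρ1 : |ρ| ≤ L / 2 := by
    rw [hρ, abs_div, abs_of_pos hσ0, hL, div_div, div_le_div_iff₀ hσ0 (by positivity)]
    have := mul_le_mul_of_nonneg_right hd (by positivity : 0 ≤ σ * 2)
    linarith
  have eB : z ^ 2 + (((1 : ℕ) : ℝ) + ρ) * z = t' / n := by
    have h1 : ρ * z = (t' - t - σ) / n := by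
      rw [hρ, ← hnz]; field_simp
    have h2 : z = σ / n := by rw [← hnz]; field_simp
    have e : z ^ 2 + (((1 : ℕ) : ℝ) + ρ) * z = z ^ 2 + z + ρ * z := by push_cast; ring
    rw [e, h1, hz2, h2]; ring
  -- K
  set K : ℕ := ⌈2 / L⌉₊ with hK
  have hK1 : 2 / L ≤ K := Nat.le_ceil _
  have hK2 : (K : ℝ) < 2 / L + 1 := Nat.ceil_lt_add_one (by positivity)
  have h2L : 2 / L ≤ 2 * r ^ 7 := by
    rw [hL, div_div_eq_mul_div, div_le_iff₀ (by positivity)]
    have e : 2 * r ^ 7 * r ^ 498 = 2 * r ^ 505 := by ring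
    rw [e]; linarith
  have hr7 : 1 ≤ r ^ 7 := one_le_pow₀ (by linarith)
  have hK3 : (K : ℝ) ≤ 3 * r ^ 7 := by linarith
  have hL2 : 2 ≤ 2 / L := by
    rw [le_div_iff₀ hL0]; linarith
  have hKR : (1 : ℝ) ≤ K := by linarith
  have hKpos : 1 ≤ K := by exact_mod_cast hKR
  have hρK : |ρ| ≤ L - 1 / K := by
    have b1 : 1 / (K : ℝ) ≤ L / 2 := by
      rw [div_le_div_iff₀ (by linarith) (by norm_num)]
      rw [div_le_iff₀ hL0] at hK1
      linarith
    linarith
  -- f, w and g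
  set f : ℝ := Real.sqrt ((73984 * K ^ 3 : ℕ) : ℝ) with hf
  have hfF : f ^ 2 = ((73984 * K ^ 3 : ℕ) : ℝ) := Real.sq_sqrt (by positivity)
  have hf2 : f ^ 2 = 73984 * (K : ℝ) ^ 3 := by rw [hfF]; push_cast; ring
  have hfpos : 0 < f := Real.sqrt_pos.mpr (by positivity)
  set w : ℝ := Real.sqrt (Real.sqrt z) with hw
  have hw2 : w ^ 2 = Real.sqrt z := Real.sq_sqrt (Real.sqrt_nonneg _)
  have hw4 : (w ^ 2) ^ 2 = z := by rw [hw2]; exact Real.sq_sqrt hz0.le
  have hw0 : 0 ≤ w := Real.sqrt_nonneg _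
  set g : ℝ := Real.sqrt (w / f) with hg
  have hg2 : g ^ 2 = w / f := Real.sq_sqrt (by positivity)
  have hfg : f * g ^ 2 = w := by rw [hg2]; field_simp
  have hgbig : 24000 * (K : ℝ) * f ^ 4 ≤ g := by
    rw [hg]
    apply Real.le_sqrt_of_sq_le
    rw [le_div_iff₀ hfpos, hw]
    apply Real.le_sqrt_of_sq_le
    apply Real.le_sqrt_of_sq_le
    have e : (((24000 * (K : ℝ) * f ^ 4) ^ 2 * f) ^ 2) ^ 2 =
        24000 ^ 8 * K ^ 8 * (f ^ 2) ^ 18 := by ring
    rw [e, hf2]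
    have e2 : 24000 ^ 8 * (K : ℝ) ^ 8 * (73984 * (K : ℝ) ^ 3) ^ 18 =
        24000 ^ 8 * 73984 ^ 18 * (K : ℝ) ^ 62 := by ring
    rw [e2]
    have a3 : (K : ℝ) ^ 62 ≤ (3 * r ^ 7) ^ 62 := pow_le_pow_left₀ (by positivity) hK3 62
    have a4 : 24000 ^ 8 * 73984 ^ 18 * (K : ℝ) ^ 62 ≤ 24000 ^ 8 * 73984 ^ 18 * (3 * r ^ 7) ^ 62 :=
      mul_le_mul_of_nonneg_left a3 (by positivity)
    have a5 : 24000 ^ 8 * 73984 ^ 18 * (3 * r ^ 7) ^ 62 =
        (24000 ^ 8 * 73984 ^ 18 * 3 ^ 62) * r ^ 434 := by ring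
    have a6 : (24000 ^ 8 * 73984 ^ 18 * 3 ^ 62) * r ^ 434 ≤ r * r ^ 434 :=
      mul_le_mul_of_nonneg_right hr (by positivity)
    have a7 : r * r ^ 434 ≤ r ^ 495 := by
      rw [← pow_succ']
      exact pow_le_pow_right₀ (by linarith) (by norm_num)
    linarith
  have P : Pair z L (1 / (8 * K)) ρ 1 ((s + par n) + (s' + par n)) := by
    have htt : 0 ≤ t' := by
      have := (abs_le.mp hd).1
      have h498 : r ^ 498 ≤ r ^ 500 := pow_le_pow_right₀ (by linarith) (by norm_num)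
      linarith
    refine ⟨hz0, hL1, one_pos, by positivity, s + par n, s' + par n, rfl, ?_, ?_⟩
    · rw [hz2, hLz]; exact scale_value ht0.le hn hs
    · rw [eB, hLz]; exact scale_value htt hn hs'
  exact full_core P hKpos hfF hfpos.le hρK hgbig (by rw [hfg, hw4])

end Pool.Agent.MP_bf4c7f_par
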