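import Pool.Agent.Lib.MP_bf4c7f_par.Basic

/-! The products `a V`, `(a+1)(V-f^2)`, `(a+1) V`, `(a+2)(V-f^2)` and the final contradiction. -/

namespace Pool.Agent.MP_bf4c7f_par

open ArithmeticFunction

/-- `par` is constant on a run. -/
theorem run_const {lo hi : ℝ} (H : ∀ b : ℕ, lo ≤ b → (b : ℝ) + 1 ≤ hi → par b = par (b + 1))
    (b b' : ℕ) (h1 : lo ≤ b) (h2 : b ≤ b') (h3 : (b' : ℝ) ≤ hi) : par b = par b' := by
  induction b', h2 using Nat.le_induction with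
  | base => rfl
  | succ n hn ih =>
    have h4 : (n : ℝ) + 1 ≤ hi := by push_cast at h3; exact h3
    have h5 : lo ≤ (n : ℝ) := le_trans h1 (by exact_mod_cast hn)
    rw [ih (by linarith), H n h5 h4]

theorem lattice_contra {g : ℝ} (hg : 10 ≤ g)
    (H : ∀ a : ℕ, g ^ 2 ≤ a → (a : ℝ) + 2 ≤ g ^ 2 + 6 * g → par a = par (a + 2)) : False := by
  have H2 : ∀ b : ℕ, g ^ 2 / 2 ≤ b → (b : ℝ) + 1 ≤ g ^ 2 / 2 + 3 * g → par b = par (b + 1) := by
    intro b h1 h2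
    have hb : b ≠ 0 := by
      rintro rfl
      have : 0 < g ^ 2 := by positivity
      simp at h1
      linarith
    have := H (2 * b) (by push_cast; linarith) (by push_cast; linarith)
    have e : 2 * b + 2 = 2 * (b + 1) := by ring
    rw [e, par_mul two_ne_zero hb, par_mul two_ne_zero (Nat.succ_ne_zero b)] at this
    exact add_left_cancel this
  -- a square
  set r : ℕ := ⌈Real.sqrt (g ^ 2 / 2)⌉₊ with hr
  have hs : Real.sqrt (g ^ 2 / 2) ^ 2 = g ^ 2 / 2 := Real.sq_sqrt (by positivity)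
  have hs0 : 0 ≤ Real.sqrt (g ^ 2 / 2) := Real.sqrt_nonneg _
  have hsg : Real.sqrt (g ^ 2 / 2) ≤ g := by
    rw [Real.sqrt_le_left (by linarith)]
    nlinarith
  have hr1 : Real.sqrt (g ^ 2 / 2) ≤ r := Nat.le_ceil _
  have hr2 : (r : ℝ) < Real.sqrt (g ^ 2 / 2) + 1 := Nat.ceil_lt_add_one hs0
  have hspos : 0 < Real.sqrt (g ^ 2 / 2) := Real.sqrt_pos.mpr (by positivity)
  have hrpos : 0 < r := by
    have : (0 : ℝ) < r := lt_of_lt_of_le hspos hr1
    exact_mod_cast this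
  have hrr1 : g ^ 2 / 2 ≤ ((r * r : ℕ) : ℝ) := by
    push_cast; nlinarith
  have hrr2 : ((r * r : ℕ) : ℝ) ≤ g ^ 2 / 2 + 3 * g := by
    push_cast; nlinarith
  -- twice a square
  set t : ℕ := ⌈g / 2⌉₊ with ht
  have ht1 : g / 2 ≤ t := Nat.le_ceil _
  have ht2 : (t : ℝ) < g / 2 + 1 := Nat.ceil_lt_add_one (by linarith)
  have htpos : 0 < t := by
    have : (0 : ℝ) < t := lt_of_lt_of_le (by linarith) ht1
    exact_mod_cast this
  have htt1 : g ^ 2 / 2 ≤ ((2 * (t * t) : ℕ) : ℝ) := by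
    push_cast; nlinarith
  have htt2 : ((2 * (t * t) : ℕ) : ℝ) ≤ g ^ 2 / 2 + 3 * g := by
    push_cast; nlinarith
  have h0 : par (r * r) = 0 := par_sq hrpos.ne'
  have h1 : par (2 * (t * t)) = 1 := by
    rw [par_mul two_ne_zero (mul_ne_zero htpos.ne' htpos.ne'), par_sq htpos.ne', par_two, add_zero]
  have key : par (r * r) = par (2 * (t * t)) := by
    rcases le_total (r * r) (2 * (t * t)) with hle | hle
    · exact run_const H2 _ _ hrr1 hle htt2
    · exact (run_const H2 _ _ htt1 hle hrr2).symm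
  rw [h0, h1] at key
  exact absurd key (by decide)

/-- the linear parameter of the pair `(a, G)` -/
noncomputable def U (f g a G : ℝ) : ℝ := G - 2 * f ^ 2 * g ^ 2 - f ^ 2 * (a - g ^ 2) ^ 2 / g ^ 2

theorem prod_formula {f g a G : ℝ} (hg : g ≠ 0) :
    a * (G - f ^ 2 * a) = (f * g ^ 2) ^ 2 + U f g a G * a + f ^ 2 * (a - g ^ 2) ^ 3 / g ^ 2 := by
  unfold U
  field_simp
  ring

/-- closeness of a product to `w^2 + (u₀ / f) w`, `w = f g^2` -/
theorem prod_close {f g a G u₀ : ℝ} (hf : 1 ≤ f) (hg : 10 ≤ g) (h1 : 0 ≤ a - g ^ 2)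
    (h2 : a - g ^ 2 ≤ 6 * g) (hU : |U f g a G| ≤ 3 * f ^ 2)
    (hd : |U f g a G - u₀| * g ^ 2 ≤ 60 * f ^ 2 * g) :
    |a * (G - f ^ 2 * a) - (f * g ^ 2) ^ 2 - u₀ / f * (f * g ^ 2)| ≤
      300 * f / g * (f * g ^ 2) := by
  have hg0 : 0 < g := by linarith
  have hf0 : 0 < f := by linarith
  have e : a * (G - f ^ 2 * a) - (f * g ^ 2) ^ 2 - u₀ / f * (f * g ^ 2) =
      (U f g a G - u₀) * g ^ 2 + U f g a G * (a - g ^ 2) + f ^ 2 * (a - g ^ 2) ^ 3 / g ^ 2 := by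
    rw [prod_formula hg0.ne']
    field_simp
    ring
  rw [e]
  have e2 : 300 * f / g * (f * g ^ 2) = 300 * f ^ 2 * g := by field_simp
  rw [e2]
  have b1 : |(U f g a G - u₀) * g ^ 2| ≤ 60 * f ^ 2 * g := by
    rw [abs_mul, abs_of_nonneg (sq_nonneg g)]; exact hd
  have b2 : |U f g a G * (a - g ^ 2)| ≤ 3 * f ^ 2 * (6 * g) := by
    rw [abs_mul, abs_of_nonneg h1]
    exact mul_le_mul hU h2 h1 (by positivity)
  have b3 : |f ^ 2 * (a - g ^ 2) ^ 3 / g ^ 2| ≤ 216 * f ^ 2 * g := by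
    rw [abs_of_nonneg (by positivity)]
    rw [div_le_iff₀ (by positivity)]
    have : (a - g ^ 2) ^ 3 ≤ (6 * g) ^ 3 := pow_le_pow_left₀ h1 h2 3
    calc f ^ 2 * (a - g ^ 2) ^ 3 ≤ f ^ 2 * (6 * g) ^ 3 :=
          mul_le_mul_of_nonneg_left this (by positivity)
      _ = 216 * f ^ 2 * g * g ^ 2 := by ring
  have t1 := abs_add_le ((U f g a G - u₀) * g ^ 2 + U f g a G * (a - g ^ 2))
    (f ^ 2 * (a - g ^ 2) ^ 3 / g ^ 2)
  have t2 := abs_add_le ((U f g a G - u₀) * g ^ 2) (U f g a G * (a - g ^ 2))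
  have : 0 ≤ f ^ 2 * g := by positivity
  nlinarith

theorem U_succ {f g a G : ℝ} (hg : g ≠ 0) :
    U f g (a + 1) G - U f g a G = -(f ^ 2 * (2 * (a - g ^ 2) + 1) / g ^ 2) := by
  unfold U
  field_simp
  ring

theorem U_shift {f g a G : ℝ} : U f g a (G + f ^ 2) = U f g a G + f ^ 2 := by
  unfold U; ring

theorem aux_quad (a a1 a2 v v1 : ZMod 2) :
    a + v + (a1 + v1) + (a1 + v) + (a2 + v1) = a + a2 := by
  revert a a1 a2 v v1; decide

/-- The four products. `F` is the slope, `f = √F`. -/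
theorem quad {F : ℕ} {f : ℝ} (hfF : f ^ 2 = F) (hfR : 1 ≤ f) {g : ℝ} (hg : 10 ≤ g) {a : ℕ}
    (ha1 : g ^ 2 ≤ a) (ha2 : (a : ℝ) + 2 ≤ g ^ 2 + 6 * g) (G : ℤ) {u : ℝ} (hu : u = U f g a G)
    (hu' : |u| ≤ f ^ 2) :
    ∃ P1 P2 P3 P4 : ℕ,
      |(P1 : ℝ) - (f * g ^ 2) ^ 2 - u / f * (f * g ^ 2)| ≤ 300 * f / g * (f * g ^ 2) ∧
      |(P2 : ℝ) - (f * g ^ 2) ^ 2 - u / f * (f * g ^ 2)| ≤ 300 * f / g * (f * g ^ 2) ∧
      |(P3 : ℝ) - (f * g ^ 2) ^ 2 - (u + f ^ 2) / f * (f * g ^ 2)| ≤ 300 * f / g * (f * g ^ 2) ∧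
      |(P4 : ℝ) - (f * g ^ 2) ^ 2 - (u + f ^ 2) / f * (f * g ^ 2)| ≤ 300 * f / g * (f * g ^ 2) ∧
      (P1 : ℤ) - P2 = F * (a + 1) - (G - F * a) ∧
      (P3 : ℤ) - P4 = F * (a + 2) - (G - F * a) ∧
      par P1 + par P2 + par P3 + par P4 = par a + par (a + 2) := by
  have hg0 : 0 < g := by linarith
  have hf2 : (1 : ℝ) ≤ f ^ 2 := by nlinarith
  obtain ⟨hu1, hu2⟩ := abs_le.mp hu'
  -- positivity of V - f^2
  have hV : f ^ 2 < G - f ^ 2 * a := by
    have e : (G : ℝ) - f ^ 2 * a = f ^ 2 * g ^ 2 - f ^ 2 * (a - g ^ 2)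
        + f ^ 2 * (a - g ^ 2) ^ 2 / g ^ 2 + u := by
      rw [hu]; unfold U; ring
    rw [e]
    have h0 : 0 ≤ f ^ 2 * (a - g ^ 2) ^ 2 / g ^ 2 := by positivity
    have h3 : f ^ 2 * (a - g ^ 2) ≤ f ^ 2 * (6 * g - 2) :=
      mul_le_mul_of_nonneg_left (by linarith) (by positivity)
    have h4 : f ^ 2 * 3 ≤ f ^ 2 * (g ^ 2 - (6 * g - 2)) :=
      mul_le_mul_of_nonneg_left (by nlinarith) (by positivity)
    nlinarith
  have hVZ : (0 : ℤ) < G - F * a - F := by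
    have : (0 : ℝ) < ((G - (F : ℤ) * a - (F : ℤ) : ℤ) : ℝ) := by
      push_cast; rw [← hfF]; linarith
    exact_mod_cast this
  have hFpos : 0 < F := by
    have : (0 : ℝ) < F := by rw [← hfF]; linarith
    exact_mod_cast this
  obtain ⟨v, hv⟩ := Int.eq_ofNat_of_zero_le hVZ.le
  have hvpos : 0 < v := by
    have : (0 : ℤ) < (v : ℤ) := by
      have := hVZ; rw [hv] at this; simpa using this
    exact_mod_cast this
  have hvG : (G : ℤ) - F * a = v + F := by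
    have : (G : ℤ) - F * a - F = v := by rw [hv]
    linarith
  have hvR : (G : ℝ) - f ^ 2 * a = v + f ^ 2 := by
    rw [hfF]; exact_mod_cast hvG
  have ha0 : 0 < a := by
    have : (0 : ℝ) < a := lt_of_lt_of_le (by positivity) ha1
    exact_mod_cast this
  -- the U's
  have hU1 : U f g a G = u := hu.symm
  have hU2 : U f g ((a : ℝ) + 1) G = u - f ^ 2 * (2 * (a - g ^ 2) + 1) / g ^ 2 := by
    have := U_succ (f := f) (a := a) (G := G) hg0.ne'
    linarith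
  have hU4 : U f g ((a : ℝ) + 2) G = u - f ^ 2 * (4 * (a - g ^ 2) + 4) / g ^ 2 := by
    have := U_succ (f := f) (a := (a : ℝ) + 1) (G := G) hg0.ne'
    have e : (a : ℝ) + 1 + 1 = a + 2 := by ring
    rw [e, hU2] at this
    have : U f g ((a : ℝ) + 2) G = u - f ^ 2 * (2 * (a - g ^ 2) + 1) / g ^ 2
      - (f ^ 2 * (2 * ((a : ℝ) + 1 - g ^ 2) + 1) / g ^ 2) := by linarith
    rw [this]; ring
  have hc2 : |f ^ 2 * (2 * (a - g ^ 2) + 1) / g ^ 2| * g ^ 2 ≤ 60 * f ^ 2 * g := by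
    rw [abs_of_nonneg (by apply div_nonneg _ (by positivity); apply mul_nonneg (by positivity); linarith)]
    rw [div_mul_cancel₀ _ (by positivity)]
    have : f ^ 2 * (2 * (a - g ^ 2) + 1) ≤ f ^ 2 * (60 * g) :=
      mul_le_mul_of_nonneg_left (by linarith) (by positivity)
    linarith
  have hc4 : |f ^ 2 * (4 * (a - g ^ 2) + 4) / g ^ 2| * g ^ 2 ≤ 60 * f ^ 2 * g := by
    rw [abs_of_nonneg (by apply div_nonneg _ (by positivity); apply mul_nonneg (by positivity); linarith)]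
    rw [div_mul_cancel₀ _ (by positivity)]
    have : f ^ 2 * (4 * (a - g ^ 2) + 4) ≤ f ^ 2 * (60 * g) :=
      mul_le_mul_of_nonneg_left (by linarith) (by positivity)
    linarith
  have hb2 : 0 ≤ f ^ 2 * (2 * (a - g ^ 2) + 1) / g ^ 2 ∧
      f ^ 2 * (2 * (a - g ^ 2) + 1) / g ^ 2 ≤ 2 * f ^ 2 := by
    constructor
    · apply div_nonneg _ (by positivity); apply mul_nonneg (by positivity); linarith
    · rw [div_le_iff₀ (by positivity)]
      have : f ^ 2 * (2 * (a - g ^ 2) + 1) ≤ f ^ 2 * (2 * g ^ 2) :=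
        mul_le_mul_of_nonneg_left (by nlinarith) (by positivity)
      linarith
  have hb4 : 0 ≤ f ^ 2 * (4 * (a - g ^ 2) + 4) / g ^ 2 ∧
      f ^ 2 * (4 * (a - g ^ 2) + 4) / g ^ 2 ≤ 3 * f ^ 2 := by
    constructor
    · apply div_nonneg _ (by positivity); apply mul_nonneg (by positivity); linarith
    · rw [div_le_iff₀ (by positivity)]
      have : f ^ 2 * (4 * (a - g ^ 2) + 4) ≤ f ^ 2 * (3 * g ^ 2) :=
        mul_le_mul_of_nonneg_left (by nlinarith) (by positivity)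
      linarith
  have c1 := prod_close (f := f) (g := g) (a := a) (G := G) (u₀ := u) hfR hg (by linarith)
    (by linarith) (by rw [hU1]; linarith) (by rw [hU1, sub_self, abs_zero, zero_mul]; positivity)
  have c2 := prod_close (f := f) (g := g) (a := (a : ℝ) + 1) (G := G) (u₀ := u) hfR hg
    (by linarith) (by linarith)
    (by rw [hU2, abs_le]; constructor <;> linarith)
    (by
      rw [hU2]
      have e : u - f ^ 2 * (2 * (a - g ^ 2) + 1) / g ^ 2 - u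
        = -(f ^ 2 * (2 * (a - g ^ 2) + 1) / g ^ 2) := by ring
      rw [e, abs_neg]; exact hc2)
  have c3 := prod_close (f := f) (g := g) (a := (a : ℝ) + 1) (G := G + f ^ 2)
    (u₀ := u + f ^ 2) hfR hg (by linarith) (by linarith)
    (by rw [U_shift, hU2, abs_le]; constructor <;> linarith)
    (by
      rw [U_shift, hU2]
      have e : u - f ^ 2 * (2 * (a - g ^ 2) + 1) / g ^ 2 + f ^ 2 - (u + f ^ 2)
        = -(f ^ 2 * (2 * (a - g ^ 2) + 1) / g ^ 2) := by ring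
      rw [e, abs_neg]; exact hc2)
  have c4 := prod_close (f := f) (g := g) (a := (a : ℝ) + 2) (G := G + f ^ 2)
    (u₀ := u + f ^ 2) hfR hg (by linarith) (by linarith)
    (by rw [U_shift, hU4, abs_le]; constructor <;> linarith)
    (by
      rw [U_shift, hU4]
      have e : u - f ^ 2 * (4 * (a - g ^ 2) + 4) / g ^ 2 + f ^ 2 - (u + f ^ 2)
        = -(f ^ 2 * (4 * (a - g ^ 2) + 4) / g ^ 2) := by ring
      rw [e, abs_neg]; exact hc4)
  have ha1ne : a + 1 ≠ 0 := Nat.succ_ne_zero a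
  have ha2ne : a + 2 ≠ 0 := Nat.succ_ne_zero (a + 1)
  have hvf : v + F ≠ 0 := by positivity
  refine ⟨a * (v + F), (a + 1) * v, (a + 1) * (v + F), (a + 2) * v, ?_, ?_, ?_, ?_, ?_, ?_, ?_⟩
  · have e : ((a * (v + F) : ℕ) : ℝ) = a * (G - f ^ 2 * a) := by push_cast; rw [hvR, hfF]
    rw [e]; exact c1
  · have e : (((a + 1) * v : ℕ) : ℝ) = ((a : ℝ) + 1) * (G - f ^ 2 * ((a : ℝ) + 1)) := by
      push_cast
      have : (G : ℝ) - f ^ 2 * ((a : ℝ) + 1) = v := by linarith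
      rw [this]
    rw [e]; exact c2
  · have e : (((a + 1) * (v + F) : ℕ) : ℝ) =
        ((a : ℝ) + 1) * ((G : ℝ) + f ^ 2 - f ^ 2 * ((a : ℝ) + 1)) := by
      push_cast
      have : (G : ℝ) + f ^ 2 - f ^ 2 * ((a : ℝ) + 1) = v + f ^ 2 := by linarith
      rw [this, hfF]
    rw [e]; exact c3
  · have e : (((a + 2) * v : ℕ) : ℝ) =
        ((a : ℝ) + 2) * ((G : ℝ) + f ^ 2 - f ^ 2 * ((a : ℝ) + 2)) := by
      push_cast
      have : (G : ℝ) + f ^ 2 - f ^ 2 * ((a : ℝ) + 2) = v := by linarith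
      rw [this]
    rw [e]; exact c4
  · rw [hvG]; push_cast; ring
  · rw [hvG]; push_cast; ring
  · rw [par_mul ha0.ne' hvf, par_mul ha1ne hvpos.ne', par_mul ha1ne hvf,
      par_mul ha2ne hvpos.ne']
    exact aux_quad _ _ _ _ _

end Pool.Agent.MP_bf4c7f_par
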