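import Pool.Agent.Lib.MP_bf4c7f_par.Basic

/-! Choice of the quadratic phase by the pigeonhole principle; Dirichlet. -/

namespace Pool.Agent.MP_bf4c7f_par

theorem no_two {h q F Q : ℕ} {β μ : ℝ} (hh : 0 < h) (hq : 0 < q) (hqQ : q ≤ Q)
    (hβ0 : 0 ≤ β) (hβ2 : β < 2)
    (hf : 8 * h * Q * (4 * Q + 2) ^ 2 ≤ F) {i i' : ℕ} (hii : i < i') (hi' : i' ≤ 2 * Q)
    {p p' : ℤ}
    (h1 : |q * (μ + 2 * h * (2 * i + β) ^ 2 / F) - p| < 2 / (F : ℝ))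
    (h2 : |q * (μ + 2 * h * (2 * i' + β) ^ 2 / F) - p'| < 2 / (F : ℝ)) : False := by
  have hQ : 1 ≤ Q := by omega
  have hfR : 8 * (h : ℝ) * Q * (4 * Q + 2) ^ 2 ≤ (F : ℝ) := by exact_mod_cast hf
  have hhR : (1 : ℝ) ≤ h := by exact_mod_cast hh
  have hqR : (1 : ℝ) ≤ q := by exact_mod_cast hq
  have hqQR : (q : ℝ) ≤ Q := by exact_mod_cast hqQ
  have hQR : (1 : ℝ) ≤ Q := by exact_mod_cast hQ
  have hiR : (i : ℝ) + 1 ≤ i' := by exact_mod_cast hii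
  have hi'R : (i' : ℝ) ≤ 2 * Q := by exact_mod_cast hi'
  have hi0 : (0 : ℝ) ≤ i := by positivity
  have hf288 : (288 : ℝ) ≤ (F : ℝ) := by
    refine le_trans ?_ hfR
    have a1 : (36 : ℝ) ≤ (4 * (Q : ℝ) + 2) ^ 2 := by nlinarith
    have a2 : (8 : ℝ) ≤ 8 * h * Q := by nlinarith
    nlinarith
  have hf0 : (0 : ℝ) < (F : ℝ) := by linarith
  obtain ⟨h3, h4⟩ := abs_lt.mp h1
  obtain ⟨h5, h6⟩ := abs_lt.mp h2
  set D : ℝ := 2 * h * q * ((2 * i' + β) ^ 2 - (2 * i + β) ^ 2) / F with hD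
  have e : q * (μ + 2 * h * (2 * i' + β) ^ 2 / F) - q * (μ + 2 * h * (2 * i + β) ^ 2 / F)
      = D := by
    rw [hD]; field_simp; ring
  have hsq1 : 4 ≤ (2 * (i' : ℝ) + β) ^ 2 - (2 * i + β) ^ 2 := by nlinarith
  have hsq2 : (2 * (i' : ℝ) + β) ^ 2 - (2 * i + β) ^ 2 ≤ (4 * Q + 2) ^ 2 := by
    have a1 : (2 * (i' : ℝ) + β) ^ 2 ≤ (4 * Q + 2) ^ 2 := by
      apply pow_le_pow_left₀ (by positivity); linarith
    have a2 : 0 ≤ (2 * (i : ℝ) + β) ^ 2 := sq_nonneg _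
    linarith
  have hD1 : 8 / (F : ℝ) ≤ D := by
    rw [hD]
    apply div_le_div_of_nonneg_right _ hf0.le
    have : (1 : ℝ) ≤ h * q := by nlinarith
    nlinarith
  have hD2 : D ≤ 1 / 4 := by
    rw [hD, div_le_iff₀ hf0]
    have a1 : 2 * (h : ℝ) * q * ((2 * i' + β) ^ 2 - (2 * i + β) ^ 2) ≤
        2 * h * Q * (4 * Q + 2) ^ 2 := by
      apply mul_le_mul _ hsq2 (by linarith) (by positivity)
      gcongr
    linarith
  have h7 : 2 / (F : ℝ) ≤ 1 / 8 := by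
    rw [div_le_iff₀ hf0]; linarith
  have e8 : 8 / (F : ℝ) = 4 * (2 / (F : ℝ)) := by ring
  have hpos : 0 < 2 / (F : ℝ) := by positivity
  have b1 : (0 : ℝ) < ((p' - p : ℤ) : ℝ) := by push_cast; linarith
  have b2 : ((p' - p : ℤ) : ℝ) < 1 := by push_cast; linarith
  have b1' : 0 < p' - p := by exact_mod_cast b1
  have b2' : p' - p < 1 := by exact_mod_cast b2
  omega

theorem good_index {h F Q : ℕ} {β μ₁ μ₂ : ℝ} (hh : 0 < h) (hβ0 : 0 ≤ β) (hβ2 : β < 2)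
    (hf : 8 * h * Q * (4 * Q + 2) ^ 2 ≤ F) :
    ∃ i : ℕ, i ≤ 2 * Q ∧ (∀ (q : ℕ) (p : ℤ), 0 < q → q ≤ Q →
      2 / (F : ℝ) ≤ |q * (μ₁ + 2 * h * (2 * i + β) ^ 2 / F) - p| ∧
      2 / (F : ℝ) ≤ |q * (μ₂ + 2 * h * (2 * i + β) ^ 2 / F) - p|) := by
  classical
  by_contra hcon
  push Not at hcon
  -- bad data
  set μ : Bool → ℝ := fun b => if b then μ₁ else μ₂ with hμ
  have hbad : ∀ i : ℕ, i ≤ 2 * Q → ∃ bq : Bool × ℕ, 0 < bq.2 ∧ bq.2 ≤ Q ∧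
      ∃ p : ℤ, |bq.2 * (μ bq.1 + 2 * h * (2 * i + β) ^ 2 / F) - p| < 2 / (F : ℝ) := by
    intro i hi
    obtain ⟨q, p, hq0, hqQ, H⟩ := hcon i hi
    by_cases c : 2 / (F : ℝ) ≤ |q * (μ₁ + 2 * h * (2 * i + β) ^ 2 / F) - p|
    · exact ⟨(false, q), hq0, hqQ, p, by simpa [hμ] using H c⟩
    · push Not at c
      exact ⟨(true, q), hq0, hqQ, p, by simpa [hμ] using c⟩
  choose! F hF1 hF2 hF3 using hbad
  -- pigeonhole
  have hmaps : ∀ i ∈ Finset.range (2 * Q + 1),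
      F i ∈ (Finset.univ : Finset Bool) ×ˢ Finset.Icc 1 Q := by
    intro i hi
    rw [Finset.mem_range] at hi
    rw [Finset.mem_product]
    refine ⟨Finset.mem_univ _, Finset.mem_Icc.mpr ⟨?_, ?_⟩⟩
    · exact hF1 i (by omega)
    · exact hF2 i (by omega)
  have hcard : ((Finset.univ : Finset Bool) ×ˢ Finset.Icc 1 Q).card <
      (Finset.range (2 * Q + 1)).card := by
    rw [Finset.card_product, Nat.card_Icc, Finset.card_range]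
    simp
  obtain ⟨i, hi, i', hi', hne, hFF⟩ := Finset.exists_ne_map_eq_of_card_lt_of_maps_to hcard hmaps
  rw [Finset.mem_range] at hi hi'
  obtain ⟨p, hp⟩ := hF3 i (by omega)
  obtain ⟨p', hp'⟩ := hF3 i' (by omega)
  rcases lt_or_gt_of_ne hne with hlt | hlt
  · rw [← hFF] at hp'
    exact no_two hh (hF1 i (by omega)) (hF2 i (by omega)) hβ0 hβ2 hf hlt (by omega) hp hp'
  · rw [hFF] at hp
    exact no_two hh (hF1 i' (by omega)) (hF2 i' (by omega)) hβ0 hβ2 hf hlt (by omega) hp' hp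

theorem dirichlet (x : ℝ) {Q : ℕ} (hQ : 0 < Q) :
    ∃ (q : ℕ) (p : ℤ), 0 < q ∧ q ≤ Q ∧ |x * q - p| ≤ 1 / (Q + 1) := by
  obtain ⟨j, k, hk, hkQ, H⟩ := Real.exists_int_int_abs_mul_sub_le x hQ
  obtain ⟨q, hq⟩ := Int.eq_ofNat_of_zero_le hk.le
  subst hq
  refine ⟨q, j, by exact_mod_cast hk, by exact_mod_cast hkQ, ?_⟩
  have : x * q - j = ((q : ℤ) : ℝ) * x - j := by push_cast; ring
  rw [this]; exact H

end Pool.Agent.MP_bf4c7f_par
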