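import Pool.Agent.Lib.MP_bf4c7f_par.Numeric
import Pool.Agent.Lib.MP_bf4c7f_par.Pigeon
import Pool.Agent.Lib.MP_bf4c7f_par.Lattice

/-! Level three and the repulsion of parity constant intervals `(z^2, z^2 + z)`. -/

namespace Pool.Agent.MP_bf4c7f_par

open ArithmeticFunction

theorem chain2_le {A B : ℝ} {δ : ZMod 2}
    (H : ∀ X : ℕ, A ≤ X → (X : ℝ) ≤ B → par (X + 2) = par X + δ)
    (P n : ℕ) (h1 : A ≤ P) (h2 : ((P + 2 * n : ℕ) : ℝ) ≤ B) :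
    par (P + 2 * n) = par P + (n : ZMod 2) * δ := by
  induction n with
  | zero => simp
  | succ n ih =>
    have h3 : ((P + 2 * n : ℕ) : ℝ) ≤ B := by push_cast at h2 ⊢; linarith
    have h4 : A ≤ ((P + 2 * n : ℕ) : ℝ) := by
      push_cast
      have : (0 : ℝ) ≤ n := by positivity
      linarith
    have e : P + 2 * (n + 1) = P + 2 * n + 2 := by ring
    rw [e, H _ h4 h3, ih h3]
    push_cast
    ring

theorem chain2 {A B : ℝ} {δ : ZMod 2}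
    (H : ∀ X : ℕ, A ≤ X → (X : ℝ) ≤ B → par (X + 2) = par X + δ)
    (P P' : ℕ) (h1 : A ≤ P) (h2 : (P : ℝ) ≤ B) (h3 : A ≤ P') (h4 : (P' : ℝ) ≤ B)
    {n : ℤ} (hn : (P : ℤ) - P' = 2 * n) :
    par P + par P' = (n : ZMod 2) * δ := by
  have hneg : ∀ x : ZMod 2, -x = x := by decide
  rcases le_total 0 n with h | h
  · obtain ⟨k, rfl⟩ := Int.eq_ofNat_of_zero_le h
    have e : P = P' + 2 * k := by omega
    subst e
    rw [chain2_le H P' k h3 h2, add_comm (par P') _, add_assoc, add_self', add_zero]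
    push_cast
    rfl
  · obtain ⟨k, hk⟩ := Int.eq_ofNat_of_zero_le (by omega : (0 : ℤ) ≤ -n)
    have hn' : n = -(k : ℤ) := by omega
    subst hn'
    have e : P' = P + 2 * k := by omega
    subst e
    rw [chain2_le H P k h1 h4, ← add_assoc, add_self', zero_add]
    push_cast
    rw [hneg]

theorem level_three_spot {z lam ρ f : ℝ} {K F : ℕ} {δ : ZMod 2}
    (P : Pair z lam (1 / (8 * K)) ρ 1 δ) (hK : 1 ≤ K) (hfF : f ^ 2 = F) (hfR : 272 ≤ f)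
    (hρ : |ρ| ≤ lam - 1 / K) {g : ℝ} (hg : 24000 * (K : ℝ) * f ^ 4 ≤ g) (hKf : (K : ℝ) ^ 2 ≤ f ^ 3)
    (hz : z = ((f * g ^ 2) ^ 2) ^ 2) {ζ₀ : ℝ} (hζ : |ζ₀| ≤ 2 * f)
    (hres : ∀ (q : ℕ) (p : ℤ), 0 < q → q ≤ 8 * K →
      2 / f ^ 2 ≤ |q * (4 * (f * g ^ 2) ^ 2 + 2 * ζ₀ ^ 2) - p|)
    {c : ℕ} (hc : |(c : ℝ) - (f * g ^ 2) ^ 2 - ζ₀ * (f * g ^ 2)| ≤ 300 * f / g * (f * g ^ 2)) :
    par (c + 2) = par c + δ := by
  have hKR : (1 : ℝ) ≤ K := by exact_mod_cast hK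
  have hf0 : (0 : ℝ) < f := by linarith
  have hg0 : 0 < g := lt_of_lt_of_le (by positivity) hg
  set w : ℝ := f * g ^ 2 with hw
  have hw0 : 0 < w := by positivity
  set E : ℝ := 300 * f / g with hE
  have hE0 : 0 ≤ E := by positivity
  have hf4 : (1 : ℝ) ≤ f ^ 4 := one_le_pow₀ (by linarith)
  have hf3 : (1 : ℝ) ≤ f ^ 3 := one_le_pow₀ (by linarith)
  have hE1 : E ≤ f := by
    rw [hE, div_le_iff₀ hg0]
    have a3 : (1 : ℝ) ≤ (K : ℝ) * f ^ 4 := by nlinarith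
    have : 300 ≤ g := by linarith
    nlinarith
  set ζ : ℝ := (c - w ^ 2) / w with hζd
  have hcζ : (c : ℝ) - w ^ 2 = ζ * w := by rw [hζd]; field_simp
  have hd : |ζ - ζ₀| ≤ E := by
    have e : (c : ℝ) - w ^ 2 - ζ₀ * w = (ζ - ζ₀) * w := by rw [hcζ]; ring
    rw [e, abs_mul, abs_of_pos hw0] at hc
    exact le_of_mul_le_mul_right hc hw0
  have hζ3 : |ζ| ≤ 3 * f := by
    have := abs_add_le ζ₀ (ζ - ζ₀)
    have e : ζ₀ + (ζ - ζ₀) = ζ := by ring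
    rw [e] at this; linarith
  have hcw : |(c : ℝ) - w ^ 2| ≤ 3 * f * w := by
    rw [hcζ, abs_mul, abs_of_pos hw0]
    exact mul_le_mul_of_nonneg_right hζ3 hw0.le
  have hww : 10 ^ 6 * (K : ℝ) ^ 4 * f ^ 6 ≤ w := by
    have a1 : (24000 * (K : ℝ) * f ^ 4) ^ 2 ≤ g ^ 2 := pow_le_pow_left₀ (by positivity) hg 2
    have a2 : f * (24000 * (K : ℝ) * f ^ 4) ^ 2 ≤ w := by
      rw [hw]; exact mul_le_mul_of_nonneg_left a1 hf0.le
    have e : f * (24000 * (K : ℝ) * f ^ 4) ^ 2 = 576000000 * (K : ℝ) ^ 2 * f ^ 6 * f ^ 3 := by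
      ring
    rw [e] at a2
    have a5 : 576000000 * (K : ℝ) ^ 2 * f ^ 6 * (K : ℝ) ^ 2 ≤
        576000000 * (K : ℝ) ^ 2 * f ^ 6 * f ^ 3 :=
      mul_le_mul_of_nonneg_left hKf (by positivity)
    have a6 : 576000000 * (K : ℝ) ^ 2 * f ^ 6 * (K : ℝ) ^ 2 = 576000000 * ((K : ℝ) ^ 4 * f ^ 6) := by
      ring
    have a4 : 0 < (K : ℝ) ^ 4 * f ^ 6 := by positivity
    linarith
  set x : ℝ := 2 * ((1 : ℕ) : ℝ) * (-(2 * w ^ 2 + (c - w ^ 2) ^ 2 / w ^ 2)) with hx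
  have hxe : x = -(4 * w ^ 2 + 2 * ζ ^ 2) := by
    have : ((c : ℝ) - w ^ 2) ^ 2 / w ^ 2 = ζ ^ 2 := by rw [hcζ]; field_simp
    rw [hx, this]; push_cast; ring
  obtain ⟨q, p, hq0, hqQ, hdir⟩ := dirichlet x (Q := 8 * K) (by omega)
  have hqR : (q : ℝ) ≤ 8 * K := by exact_mod_cast hqQ
  have h2 : |x * q - p| ≤ (1 : ℝ) / (8 * K) := by
    refine le_trans hdir ?_
    push_cast
    apply one_div_le_one_div_of_le (by positivity)
    linarith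
  have h1 : 1 / f ^ 2 ≤ |x * q - p| := by
    have r := hres q (-p) hq0 hqQ
    have e : q * (4 * w ^ 2 + 2 * ζ₀ ^ 2) - ((-p : ℤ) : ℝ) =
        -(x * q - p) - 2 * q * (ζ ^ 2 - ζ₀ ^ 2) := by
      rw [hxe]; push_cast; ring
    rw [e] at r
    have t := abs_sub (-(x * q - p)) (2 * q * (ζ ^ 2 - ζ₀ ^ 2))
    rw [abs_neg] at t
    have t2 : |2 * q * (ζ ^ 2 - ζ₀ ^ 2)| ≤ 1 / f ^ 2 := by
      have e2 : 2 * (q : ℝ) * (ζ ^ 2 - ζ₀ ^ 2) = 2 * q * ((ζ - ζ₀) * (ζ + ζ₀)) := by ring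
      rw [e2, abs_mul, abs_of_nonneg (by positivity : (0 : ℝ) ≤ 2 * q), abs_mul]
      have a1 : |ζ + ζ₀| ≤ 5 * f := by
        have := abs_add_le ζ ζ₀; linarith
      have a2 : |ζ - ζ₀| * |ζ + ζ₀| ≤ E * (5 * f) := mul_le_mul hd a1 (abs_nonneg _) hE0
      have a3 : 2 * (q : ℝ) ≤ 2 * (8 * K) := by gcongr
      calc 2 * (q : ℝ) * (|ζ - ζ₀| * |ζ + ζ₀|) ≤ 2 * (8 * K) * (E * (5 * f)) :=
            mul_le_mul a3 a2 (by positivity) (by positivity)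
        _ = 24000 * (K * f ^ 2) / g := by rw [hE]; ring
        _ ≤ 1 / f ^ 2 := by
            rw [div_le_div_iff₀ hg0 (by positivity)]
            calc 24000 * ((K : ℝ) * f ^ 2) * f ^ 2 = 24000 * (K : ℝ) * f ^ 4 := by ring
              _ ≤ g := hg
              _ = 1 * g := (one_mul g).symm
    have e3 : 2 / f ^ 2 = 1 / f ^ 2 + 1 / f ^ 2 := by ring
    linarith
  exact level_two_numeric P hK hK hfF hfR hρ hww (by rw [hz]; push_cast; ring) hcw hqQ h1 h2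

theorem full_core {z lam ρ f : ℝ} {K : ℕ} {δ : ZMod 2}
    (P : Pair z lam (1 / (8 * K)) ρ 1 δ) (hK : 1 ≤ K) (hfF : f ^ 2 = ((73984 * K ^ 3 : ℕ) : ℝ))
    (hf0' : 0 ≤ f) (hρ : |ρ| ≤ lam - 1 / K) {g : ℝ} (hg : 24000 * (K : ℝ) * f ^ 4 ≤ g)
    (hz : z = ((f * g ^ 2) ^ 2) ^ 2) : False := by
  have hKR : (1 : ℝ) ≤ K := by exact_mod_cast hK
  obtain ⟨F, hFdef⟩ : ∃ F : ℕ, F = 73984 * K ^ 3 := ⟨_, rfl⟩
  rw [← hFdef] at hfF
  have hK3 : 1 ≤ K ^ 3 := Nat.one_le_pow _ _ hK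
  have hFR : (F : ℝ) = 73984 * (K : ℝ) ^ 3 := by rw [hFdef]; push_cast; ring
  have hK3R : (1 : ℝ) ≤ (K : ℝ) ^ 3 := one_le_pow₀ hKR
  have hfR : 272 ≤ f := by
    by_contra hcon
    push Not at hcon
    have : f ^ 2 < 272 ^ 2 := pow_lt_pow_left₀ hcon hf0' (by norm_num)
    rw [hfF, hFR] at this
    linarith
  have hf0 : (0 : ℝ) < f := by linarith
  have hKf : (K : ℝ) ^ 2 ≤ f ^ 3 := by
    have a1 : (K : ℝ) ^ 2 ≤ (K : ℝ) ^ 3 := pow_le_pow_right₀ hKR (by norm_num)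
    have a2 : (K : ℝ) ^ 3 ≤ f ^ 2 := by rw [hfF, hFR]; linarith
    have a3 : f ^ 2 ≤ f ^ 3 := pow_le_pow_right₀ (by linarith) (by norm_num)
    linarith
  have hg10 : 10 ≤ g := by
    refine le_trans ?_ hg
    have a2 : (1 : ℝ) ≤ f ^ 4 := one_le_pow₀ (by linarith)
    nlinarith
  have hg0 : 0 < g := by linarith
  have hpig : 8 * 1 * (8 * K) * (4 * (8 * K) + 2) ^ 2 ≤ F := by
    have a1 : 4 * (8 * K) + 2 ≤ 34 * K := by omega
    calc 8 * 1 * (8 * K) * (4 * (8 * K) + 2) ^ 2 ≤ 8 * 1 * (8 * K) * (34 * K) ^ 2 := by gcongr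
      _ = 73984 * K ^ 3 := by ring
      _ = F := hFdef.symm
  apply lattice_contra hg10
  intro a ha1 ha2
  set τ : ℝ := 2 * f ^ 2 * g ^ 2 + f ^ 2 * (a - g ^ 2) ^ 2 / g ^ 2 with hτ
  set β : ℝ := 2 * ⌈τ / 2⌉ - τ with hβ
  have hβ0 : 0 ≤ β := by have := Int.le_ceil (τ / 2); linarith
  have hβ2 : β < 2 := by have := Int.ceil_lt_add_one (τ / 2); linarith
  obtain ⟨i, hi, hgood⟩ := good_index (h := 1) (F := F) (Q := 8 * K) (β := β)
    (μ₁ := 4 * (f * g ^ 2) ^ 2) (μ₂ := 4 * (f * g ^ 2) ^ 2 + 4 * β) one_pos hβ0 hβ2 hpig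
  rw [← hfF] at hgood
  set u : ℝ := 2 * i + β with hu
  have hiR : (i : ℝ) ≤ 16 * K := by
    have : i ≤ 16 * K := by omega
    exact_mod_cast this
  have hi0 : (0 : ℝ) ≤ i := by positivity
  have hu0 : 0 ≤ u := by positivity
  have huf : u ≤ f ^ 2 := by
    have a1 : (K : ℝ) ≤ (K : ℝ) ^ 3 := by
      calc (K : ℝ) = (K : ℝ) ^ 1 := (pow_one _).symm
        _ ≤ (K : ℝ) ^ 3 := pow_le_pow_right₀ hKR (by norm_num)
    rw [hfF, hFR]; linarith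
  have hU : u = U f g a ((2 * ⌈τ / 2⌉ + 2 * i : ℤ) : ℝ) := by
    unfold U; push_cast; rw [hu, hβ, hτ]; ring
  obtain ⟨P1, P2, P3, P4, c1, c2, c3, c4, d12, d34, hsum⟩ :=
    quad hfF (by linarith) hg10 ha1 ha2 (2 * ⌈τ / 2⌉ + 2 * i) hU
      (by rw [abs_of_nonneg hu0]; exact huf)
  -- spots
  have s1 : ∀ c : ℕ, |(c : ℝ) - (f * g ^ 2) ^ 2 - u / f * (f * g ^ 2)| ≤
      300 * f / g * (f * g ^ 2) → par (c + 2) = par c + δ := by
    intro c hc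
    refine level_three_spot P hK hfF hfR hρ hg hKf hz (ζ₀ := u / f) ?_ ?_ hc
    · rw [abs_of_nonneg (by positivity), div_le_iff₀ hf0]; nlinarith
    · intro q p hq0 hqQ
      have := (hgood q p hq0 hqQ).1
      have e : q * (4 * (f * g ^ 2) ^ 2 + 2 * (u / f) ^ 2) - (p : ℝ) =
          q * (4 * (f * g ^ 2) ^ 2 + 2 * ((1 : ℕ) : ℝ) * (2 * i + β) ^ 2 / f ^ 2) - p := by
        rw [← hu]; push_cast; field_simp
      rw [e]; exact this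
  have s2 : ∀ c : ℕ, |(c : ℝ) - (f * g ^ 2) ^ 2 - (u + f ^ 2) / f * (f * g ^ 2)| ≤
      300 * f / g * (f * g ^ 2) → par (c + 2) = par c + δ := by
    intro c hc
    refine level_three_spot P hK hfF hfR hρ hg hKf hz (ζ₀ := (u + f ^ 2) / f) ?_ ?_ hc
    · rw [abs_of_nonneg (by positivity), div_le_iff₀ hf0]; nlinarith
    · intro q p hq0 hqQ
      have := (hgood q (p - q * (8 * i + 2 * F)) hq0 hqQ).2
      have e : q * (4 * (f * g ^ 2) ^ 2 + 2 * ((u + f ^ 2) / f) ^ 2) - (p : ℝ) =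
          q * (4 * (f * g ^ 2) ^ 2 + 4 * β + 2 * ((1 : ℕ) : ℝ) * (2 * i + β) ^ 2 / f ^ 2) -
            ((p - q * (8 * i + 2 * F) : ℤ) : ℝ) := by
        push_cast
        rw [← hfF]
        have e1 : 2 * ((u + f ^ 2) / f) ^ 2 =
          2 * 1 * (2 * i + β) ^ 2 / f ^ 2 + 4 * u + 2 * f ^ 2 := by
          rw [← hu]; field_simp; ring
        rw [e1, hu]; ring
      rw [e]; exact this
  have H1 : ∀ X : ℕ, (f * g ^ 2) ^ 2 + u / f * (f * g ^ 2) - 300 * f / g * (f * g ^ 2) ≤ X →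
      (X : ℝ) ≤ (f * g ^ 2) ^ 2 + u / f * (f * g ^ 2) + 300 * f / g * (f * g ^ 2) →
      par (X + 2) = par X + δ := by
    intro X h1 h2
    apply s1 X
    rw [abs_le]; constructor <;> linarith
  have H2 : ∀ X : ℕ, (f * g ^ 2) ^ 2 + (u + f ^ 2) / f * (f * g ^ 2) -
      300 * f / g * (f * g ^ 2) ≤ X →
      (X : ℝ) ≤ (f * g ^ 2) ^ 2 + (u + f ^ 2) / f * (f * g ^ 2) + 300 * f / g * (f * g ^ 2) →
      par (X + 2) = par X + δ := by
    intro X h1 h2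
    apply s2 X
    rw [abs_le]; constructor <;> linarith
  rw [abs_le] at c1 c2 c3 c4
  have hFe : (F : ℤ) = 4 * (18496 * K ^ 3 : ℕ) := by rw [hFdef]; push_cast; ring
  obtain ⟨e, he⟩ : ∃ e : ℤ, e = (18496 * K ^ 3 : ℕ) := ⟨_, rfl⟩
  rw [← he] at hFe
  have r1 := chain2 H1 P1 P2 (by linarith [c1.1]) (by linarith [c1.2]) (by linarith [c2.1])
    (by linarith [c2.2]) (n := 2 * e * (2 * a + 1) - (⌈τ / 2⌉ + i))
    (by rw [d12, hFe]; ring)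
  have r2 := chain2 H2 P3 P4 (by linarith [c3.1]) (by linarith [c3.2]) (by linarith [c4.1])
    (by linarith [c4.2]) (n := 2 * e * (2 * a + 2) - (⌈τ / 2⌉ + i))
    (by rw [d34, hFe]; ring)
  have hsum0 : par a + par (a + 2) = 0 := by
    rw [← hsum, r1, add_assoc, r2]
    have : ((2 * e * (2 * a + 1) - (⌈τ / 2⌉ + i) : ℤ) : ZMod 2) * δ +
        ((2 * e * (2 * a + 2) - (⌈τ / 2⌉ + i) : ℤ) : ZMod 2) * δ
        = ((2 * (e * (4 * a + 3) - (⌈τ / 2⌉ + i)) : ℤ) : ZMod 2) * δ := by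
      rw [← add_mul]
      push_cast
      ring
    rw [this]
    push_cast
    rw [two_eq_zero', zero_mul, zero_mul]
  have hh2 : ∀ x y : ZMod 2, x + y = 0 → x = y := by decide
  exact hh2 _ _ hsum0

end Pool.Agent.MP_bf4c7f_par
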