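import Pool.Agent.Lib.MP_bf4c7f_par.Spot
import Pool.Agent.Lib.MP_bf4c7f_par.Chain

/-! Level two: pairs `a, c` near `y = sqrt (z / h)`. -/

namespace Pool.Agent.MP_bf4c7f_par

open ArithmeticFunction

/-- `ε_n = par n + par (n+1)` -/
def eps (n : ℕ) : ZMod 2 := par n + par (n + 1)

theorem aux_eps (a a1 c c1 : ZMod 2) : a + a1 + (c + c1) = (a1 + c) + (a + c1) := by
  revert a a1 c c1; decide

/-- The relation of level two for the pair `(a, c)`. -/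
theorem level_two_pair {z L κ ρ : ℝ} {h : ℕ} {δ : ZMod 2} (P : Pair z L κ ρ h δ)
    {lo hi y T E₂ Z η : ℝ}
    (hlo : κ ≤ lo) (hlo' : ρ + κ ≤ lo) (hhi : hi ≤ L - κ) (hhi' : hi ≤ L + ρ - κ)
    (hy : 0 < y) (hzy : z = h * y ^ 2)
    {a c : ℕ} (ha : 0 < a) (hc : 0 < c)
    (hT : |(a : ℝ) + c + 1 - 2 * y| ≤ T) (hE : |(c : ℝ) - y| ≤ E₂)
    (hZ : |(a : ℝ) + c + 1 - 2 * y - (c - y) ^ 2 / y| + (T + 2) * (E₂ + 1) / y ≤ Z)
    (hZy : 2 * Z ≤ y)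
    (hη : h * ((T + 2) * (E₂ + 1) / y * (2 * Z)) + 2 * h * Z ^ 3 / y ≤ η)
    (hsmall : h * Z * y + h * (h * Z * y + 2 * h * Z ^ 2 + 1) < κ * z)
    (m : ℤ)
    (h1 : lo + η ≤ m - 2 * z - h * ((a : ℝ) + c + 1 - 2 * y - (c - y) ^ 2 / y) ^ 2)
    (h2 : m - 2 * z - h * ((a : ℝ) + c + 1 - 2 * y - (c - y) ^ 2 / y) ^ 2 ≤ hi - η) :
    eps a + eps c = ((c - a : ℤ) : ZMod 2) * δ := by
  have hT0 : 0 ≤ T := le_trans (abs_nonneg _) hT
  have hE0 : 0 ≤ E₂ := le_trans (abs_nonneg _) hE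
  set u : ℝ := (a : ℝ) + c + 1 - 2 * y - (c - y) ^ 2 / y with hu
  have hs := fun X hX => spot P hlo hlo' hhi hhi' hy hzy (by positivity) hZ hZy hη hsmall m h1 h2 X hX
  have ey : (T + 2) * (E₂ + 1) / y * y = (T + 2) * (E₂ + 1) := by field_simp
  have H : ∀ X : ℕ, y ^ 2 + u * y - (T + 2) * (E₂ + 1) ≤ X →
      (X : ℝ) ≤ y ^ 2 + u * y + (T + 2) * (E₂ + 1) → par (X + 1) = par X + δ := by
    intro X b1 b2
    apply hs X
    rw [ey, abs_le]; constructor <;> linarith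
  have huy : u * y = ((a : ℝ) + c + 1 - 2 * y) * y - (c - y) ^ 2 := by
    rw [hu]; field_simp
  -- the two products
  have eA : ((a * (c + 1) : ℕ) : ℝ) - y ^ 2 - u * y =
      ((a : ℝ) + c + 1 - 2 * y - 1) * ((c : ℝ) - y + 1) - (c - y) := by
    rw [huy]; push_cast; ring
  have eB : (((a + 1) * c : ℕ) : ℝ) - y ^ 2 - u * y =
      ((a : ℝ) + c + 1 - 2 * y) * ((c : ℝ) - y) := by
    rw [huy]; push_cast; ring
  have bA : |((a * (c + 1) : ℕ) : ℝ) - y ^ 2 - u * y| ≤ (T + 2) * (E₂ + 1) := by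
    rw [eA]
    have t1 : |((a : ℝ) + c + 1 - 2 * y - 1) * ((c : ℝ) - y + 1)| ≤ (T + 1) * (E₂ + 1) := by
      rw [abs_mul]
      apply mul_le_mul _ _ (abs_nonneg _) (by positivity)
      · have := abs_sub ((a : ℝ) + c + 1 - 2 * y) 1
        rw [abs_one] at this; linarith
      · have := abs_add_le ((c : ℝ) - y) 1
        rw [abs_one] at this; linarith
    have t2 := abs_sub (((a : ℝ) + c + 1 - 2 * y - 1) * ((c : ℝ) - y + 1)) ((c : ℝ) - y)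
    linarith
  have bB : |(((a + 1) * c : ℕ) : ℝ) - y ^ 2 - u * y| ≤ (T + 2) * (E₂ + 1) := by
    rw [eB, abs_mul]
    calc |(a : ℝ) + c + 1 - 2 * y| * |(c : ℝ) - y| ≤ T * E₂ :=
          mul_le_mul hT hE (abs_nonneg _) hT0
      _ ≤ (T + 2) * (E₂ + 1) := by nlinarith
  rw [abs_le] at bA bB
  have r := chain H ((a + 1) * c) (a * (c + 1)) (by linarith [bB.1]) (by linarith [bB.2])
    (by linarith [bA.1]) (by linarith [bA.2])
  have e : ((((a + 1) * c : ℕ) : ℤ) - ((a * (c + 1) : ℕ) : ℤ)) = (c : ℤ) - a := by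
    push_cast; ring
  rw [e] at r
  rw [par_mul (Nat.succ_ne_zero a) hc.ne', par_mul ha.ne' (Nat.succ_ne_zero c)] at r
  rw [← r]
  unfold eps
  exact aux_eps _ _ _ _

end Pool.Agent.MP_bf4c7f_par
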