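import Pool.Agent.Lib.MP_bf4c7f_par.Base

/-! Level two with explicit parameters. -/

namespace Pool.Agent.MP_bf4c7f_par

open ArithmeticFunction

theorem level_two_numeric {z lam ρ f : ℝ} {h K F : ℕ} {δ : ZMod 2}
    (P : Pair z lam (1 / (8 * K)) ρ h δ) (hK : 1 ≤ K) (hhK : h ≤ K) (hfF : f ^ 2 = F)
    (hfR : 272 ≤ f)
    (hρ : |ρ| ≤ lam - 1 / K) {w : ℝ} (hw : 10 ^ 6 * (K : ℝ) ^ 4 * f ^ 6 ≤ w)
    (hz : z = h * (w ^ 2) ^ 2) {c₀ : ℕ} (hc : |(c₀ : ℝ) - w ^ 2| ≤ 3 * f * w)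
    {q : ℕ} (hq : q ≤ 8 * K) {p : ℤ}
    (h1 : 1 / f ^ 2 ≤ |2 * h * (-(2 * w ^ 2 + (c₀ - w ^ 2) ^ 2 / w ^ 2)) * q - p|)
    (h2 : |2 * h * (-(2 * w ^ 2 + (c₀ - w ^ 2) ^ 2 / w ^ 2)) * q - p| ≤ (1 : ℝ) / (8 * K)) :
    par (c₀ + 2) = par c₀ + δ := by
  have hKR : (1 : ℝ) ≤ K := by exact_mod_cast hK
  have hhR : (1 : ℝ) ≤ h := by exact_mod_cast P.hh
  have hhKR : (h : ℝ) ≤ K := by exact_mod_cast hhK
  have hf1 : (1 : ℝ) ≤ f := by linarith
  obtain ⟨hρ1, hρ2⟩ := abs_le.mp hρ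
  set κ : ℝ := 1 / (8 * K) with hκ
  have hκK : 1 / (K : ℝ) = 8 * κ := by rw [hκ]; field_simp
  rw [hκK] at hρ1 hρ2
  have hκ0 : 0 < κ := P.hκ
  have hκ8 : 8 * κ ≤ 1 := by
    rw [← hκK]; rw [div_le_one (by linarith)]; exact hKR
  -- powers
  have hf2 : (1 : ℝ) ≤ f ^ 2 := one_le_pow₀ hf1
  have p12 : f ≤ f ^ 2 := by nlinarith
  have hK2 : (K : ℝ) ≤ (K : ℝ) ^ 2 := by nlinarith
  have hKpos : (0 : ℝ) < K := by linarith
  have hfpos : (0 : ℝ) < f := by linarith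
  -- w lower bounds
  have hw0 : 0 < w := lt_of_lt_of_le (by positivity) hw
  have hK4 : (1 : ℝ) ≤ (K : ℝ) ^ 4 := one_le_pow₀ hKR
  have hf5 : (1 : ℝ) ≤ f ^ 5 := one_le_pow₀ hf1
  -- key: 10^6 K^4 f^5 * 272 ≤ w
  have hwA : 10 ^ 6 * (K : ℝ) ^ 4 * f ^ 5 * 272 ≤ w := by
    refine le_trans ?_ hw
    have : 10 ^ 6 * (K : ℝ) ^ 4 * f ^ 5 * 272 ≤ 10 ^ 6 * (K : ℝ) ^ 4 * f ^ 5 * f :=
      mul_le_mul_of_nonneg_left hfR (by positivity)
    calc _ ≤ _ := this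
      _ = _ := by ring
  -- general monotonicity: K^i f^j ≤ K^4 f^5
  have mono : ∀ i j : ℕ, i ≤ 4 → j ≤ 5 → (K : ℝ) ^ i * f ^ j ≤ (K : ℝ) ^ 4 * f ^ 5 := by
    intro i j hi hj
    exact mul_le_mul (pow_le_pow_right₀ hKR hi) (pow_le_pow_right₀ hf1 hj) (by positivity)
      (by positivity)
  have hwB : ∀ i j : ℕ, i ≤ 4 → j ≤ 5 → 10 ^ 6 * ((K : ℝ) ^ i * f ^ j) * 272 ≤ w := by
    intro i j hi hj
    have := mono i j hi hj
    refine le_trans ?_ hwA
    have e : 10 ^ 6 * (K : ℝ) ^ 4 * f ^ 5 * 272 = 10 ^ 6 * ((K : ℝ) ^ 4 * f ^ 5) * 272 := by ring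
    rw [e]
    gcongr
  have hwc : (272000000 : ℝ) ≤ w := by
    have := hwB 0 0 (by norm_num) (by norm_num)
    norm_num at this; exact this
  have hwKf2 : 10 ^ 6 * ((K : ℝ) * f ^ 2) * 272 ≤ w := by
    have := hwB 1 2 (by norm_num) (by norm_num); rwa [pow_one] at this
  have hwKf3 : 10 ^ 6 * ((K : ℝ) * f ^ 3) * 272 ≤ w := by
    have := hwB 1 3 (by norm_num) (by norm_num); rwa [pow_one] at this
  have hwf : 10 ^ 6 * f * 272 ≤ w := by
    have := hwB 0 1 (by norm_num) (by norm_num)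
    rwa [pow_zero, one_mul, pow_one] at this
  have hKf : (1 : ℝ) ≤ (K : ℝ) * f ^ 2 := by nlinarith
  have hKf' : (272 : ℝ) * 272 ≤ (K : ℝ) * f ^ 2 := by nlinarith
  have hKf2K : (K : ℝ) ≤ K * f ^ 2 / 73984 := by
    have : (73984 : ℝ) ≤ f ^ 2 := by nlinarith
    rw [le_div_iff₀ (by norm_num)]
    exact mul_le_mul_of_nonneg_left this hKpos.le
  -- parameters
  set S : ℝ := ((F + 1 : ℕ) : ℝ) * ((8 * K : ℕ) : ℝ) + 1 with hS
  have hSe : S = 8 * (K * f ^ 2) + 8 * K + 1 := by rw [hS, hfF]; push_cast; ring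
  have hS9 : S ≤ 9 * (K * f ^ 2) := by rw [hSe]; nlinarith
  have hS0 : 0 < S := by rw [hSe]; positivity
  set L : ℝ := (K : ℝ) * f ^ 2 with hL
  have hLpos : 0 < L := by positivity
  have hLf : L * f = K * f ^ 3 := by rw [hL]; ring
  have hfL : f ^ 2 ≤ L := by rw [hL]; nlinarith
  -- the error of the products
  have herr : (34 * L + 2) * (4 * f * w + 1) / w ^ 2 ≤ 180 * (L * f) / w := by
    rw [div_le_div_iff₀ (by positivity) hw0]
    have t1 : (34 * L + 2) ≤ 36 * L := by linarith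
    have t2 : 4 * f * w + 1 ≤ 5 * f * w := by nlinarith
    have t3 : (34 * L + 2) * (4 * f * w + 1) ≤ 36 * L * (5 * f * w) :=
      mul_le_mul t1 t2 (by positivity) (by positivity)
    calc (34 * L + 2) * (4 * f * w + 1) * w ≤ 36 * L * (5 * f * w) * w :=
          mul_le_mul_of_nonneg_right t3 hw0.le
      _ = 180 * (L * f) * w ^ 2 := by ring
  have herr1 : 180 * (L * f) / w ≤ 1 := by
    rw [div_le_one hw0, hLf]; linarith
  set d : ℝ := 144 * (L * f) / w with hd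
  have hd1 : d ≤ 1 := by
    rw [hd, div_le_one hw0, hLf]; linarith
  have hd0 : 0 ≤ d := by rw [hd]; positivity
  have hKL2f : (K : ℝ) * L * (L * f) = K ^ 3 * f ^ 5 := by rw [hL]; ring
  have hwK3 : 10 ^ 6 * ((K : ℝ) ^ 4 * f ^ 5) * 272 ≤ w := hwB 4 5 (by norm_num) (by norm_num)
  refine level_two_base P (lo := max 0 ρ + κ) (hi := min lam (lam + ρ) - κ) (y := w ^ 2)
    (T := 34 * L) (E₂ := 4 * f * w) (Z := 20 * L) (η₁ := κ / 4) (η₂ := κ / 4)
    (η := 1 / f ^ 2) (κ₁ := κ) (d := d) (Q := 8 * K) (J := F + 1) (S := S)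
    ?_ ?_ ?_ ?_ (by positivity) hz hS ?_ ?_ ?_ ?_ ?_ ?_ ?_ ?_ ?_ ?_ ?_ (by positivity) ?_ hq h1 h2
  · have := le_max_left 0 ρ; linarith
  · have := le_max_right 0 ρ; linarith
  · have := min_le_left lam (lam + ρ); linarith
  · have := min_le_right lam (lam + ρ); linarith
  · rw [hSe]; push_cast; linarith
  · -- |c₀ - y| + 2 S ≤ 4 f w
    have : 18 * L ≤ f * w := by
      have : 18 * L ≤ w := by linarith
      nlinarith
    linarith
  · -- 4 f w + 2 < w^2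
    nlinarith
  · -- T
    have e : (4 * f * w) ^ 2 / w ^ 2 = 16 * f ^ 2 := by field_simp; ring
    rw [e]; linarith
  · -- d
    rw [hd, div_le_div_iff₀ (by positivity) hw0]
    have : 4 * S * (4 * f * w) ≤ 4 * (9 * L) * (4 * f * w) := by
      gcongr
    calc 4 * S * (4 * f * w) * w ≤ 4 * (9 * L) * (4 * f * w) * w :=
          mul_le_mul_of_nonneg_right this hw0.le
      _ = 144 * (L * f) * w ^ 2 := by ring
  · -- Z
    linarith
  · -- 2 Z ≤ y
    nlinarith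
  · -- η₁
    have t1 : (h : ℝ) * ((34 * L + 2) * (4 * f * w + 1) / w ^ 2 * (2 * (20 * L))) ≤
        K * (180 * (L * f) / w * (2 * (20 * L))) := by
      gcongr
    have t2 : 2 * (h : ℝ) * (20 * L) ^ 3 / w ^ 2 ≤ 2 * K * (20 * L) ^ 3 / w ^ 2 := by
      gcongr
    have e1 : (K : ℝ) * (180 * (L * f) / w * (2 * (20 * L))) = 7200 * (K ^ 3 * f ^ 5) / w := by
      rw [← hKL2f]; ring
    have t3 : 7200 * ((K : ℝ) ^ 3 * f ^ 5) / w ≤ κ / 8 := by
      rw [hκ, div_div, div_le_div_iff₀ hw0 (by positivity)]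
      have : (K : ℝ) ^ 3 * f ^ 5 * (8 * K * 8) = 64 * (K ^ 4 * f ^ 5) := by ring
      nlinarith
    have t4 : 2 * (K : ℝ) * (20 * L) ^ 3 / w ^ 2 ≤ κ / 8 := by
      rw [hκ, div_div, div_le_div_iff₀ (by positivity) (by positivity)]
      have e2 : 2 * (K : ℝ) * (20 * L) ^ 3 * (8 * K * 8) = 1024000 * (K ^ 5 * f ^ 6) := by
        rw [hL]; ring
      rw [e2, one_mul]
      have a1 : (K : ℝ) ^ 5 * f ^ 6 ≤ (K ^ 4 * f ^ 5) * (K ^ 4 * f ^ 5) := by
        have e3 : (K ^ 4 * f ^ 5) * (K ^ 4 * f ^ 5) = (K : ℝ) ^ 8 * f ^ 10 := by ring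
        rw [e3]
        exact mul_le_mul (pow_le_pow_right₀ hKR (by norm_num))
          (pow_le_pow_right₀ hf1 (by norm_num)) (by positivity) (by positivity)
      have a2 : (10 ^ 6 * ((K : ℝ) ^ 4 * f ^ 5) * 272) ^ 2 ≤ w ^ 2 :=
        pow_le_pow_left₀ (by positivity) hwK3 2
      have a3 : (10 ^ 6 * ((K : ℝ) ^ 4 * f ^ 5) * 272) ^ 2
        = 10 ^ 12 * 73984 * ((K ^ 4 * f ^ 5) * (K ^ 4 * f ^ 5)) := by ring
      rw [a3] at a2
      have a4 : 0 ≤ (K : ℝ) ^ 5 * f ^ 6 := by positivity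
      linarith
    linarith
  · -- η₂
    have t1 : (h : ℝ) * (d * (4 * S + d)) ≤ K * (d * (37 * L)) := by
      have : 4 * S + d ≤ 37 * L := by linarith
      gcongr
    have e1 : (K : ℝ) * (d * (37 * L)) = 5328 * (K ^ 3 * f ^ 5) / w := by
      rw [← hKL2f, hd]; ring
    have t3 : 5328 * ((K : ℝ) ^ 3 * f ^ 5) / w ≤ κ / 4 := by
      rw [hκ, div_div, div_le_div_iff₀ hw0 (by positivity)]
      have : (K : ℝ) ^ 3 * f ^ 5 * (8 * K * 4) = 32 * (K ^ 4 * f ^ 5) := by ring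
      nlinarith
    linarith
  · -- small
    rw [hz]
    have key : 20 * L * w ^ 2 + (h * (20 * L) * w ^ 2 + 2 * h * (20 * L) ^ 2 + 1) <
        κ * (w ^ 2) ^ 2 := by
      have e : κ * (w ^ 2) ^ 2 = w ^ 2 * w ^ 2 / (8 * K) := by rw [hκ]; ring
      rw [e, lt_div_iff₀ (by positivity)]
      have b1 : 20 * L * w ^ 2 + (h * (20 * L) * w ^ 2 + 2 * h * (20 * L) ^ 2 + 1) ≤
          20 * L * w ^ 2 + (K * (20 * L) * w ^ 2 + 2 * K * (20 * L) ^ 2 + 1) := by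
        gcongr
      have w2 : w ≤ w ^ 2 := by nlinarith
      have b2 : 20 * L * (8 * K) ≤ w := by
        have := hwB 2 2 (by norm_num) (by norm_num)
        have e2 : 20 * L * (8 * K) = 160 * (K ^ 2 * f ^ 2) := by rw [hL]; ring
        rw [e2]
        have : 0 ≤ (K : ℝ) ^ 2 * f ^ 2 := by positivity
        linarith
      have b3 : K * (20 * L) * (8 * K) ≤ w := by
        have := hwB 3 2 (by norm_num) (by norm_num)
        have e2 : K * (20 * L) * (8 * K) = 160 * (K ^ 3 * f ^ 2) := by rw [hL]; ring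
        rw [e2]
        have : 0 ≤ (K : ℝ) ^ 3 * f ^ 2 := by positivity
        linarith
      have b4 : 2 * K * (20 * L) ^ 2 * (8 * K) ≤ w := by
        have := hwB 4 4 (by norm_num) (by norm_num)
        have e2 : 2 * K * (20 * L) ^ 2 * (8 * K) = 6400 * (K ^ 4 * f ^ 4) := by rw [hL]; ring
        rw [e2]
        have : 0 ≤ (K : ℝ) ^ 4 * f ^ 4 := by positivity
        linarith
      have b5 : 8 * (K : ℝ) ≤ w := by
        have := hwB 1 0 (by norm_num) (by norm_num)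
        rw [pow_one, pow_zero, mul_one] at this
        linarith
      have c1 : 20 * L * w ^ 2 * (8 * K) ≤ w * w ^ 2 := by
        have := mul_le_mul_of_nonneg_right b2 (sq_nonneg w); linarith
      have c2 : K * (20 * L) * w ^ 2 * (8 * K) ≤ w * w ^ 2 := by
        have := mul_le_mul_of_nonneg_right b3 (sq_nonneg w); linarith
      have c3 : w * w ^ 2 * 8 ≤ w ^ 2 * w ^ 2 := by
        have := mul_le_mul_of_nonneg_right (by nlinarith : w * 8 ≤ w ^ 2) (sq_nonneg w)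
        linarith
      have c4 : w ≤ w * w ^ 2 := by nlinarith
      have c5 : 0 < w * w ^ 2 := by positivity
      have b1' := mul_le_mul_of_nonneg_right b1 (by positivity : (0 : ℝ) ≤ 8 * K)
      nlinarith
    have := mul_lt_mul_of_pos_left key (by linarith : (0 : ℝ) < h)
    calc (h : ℝ) * (20 * L) * w ^ 2 + h * (h * (20 * L) * w ^ 2 + 2 * h * (20 * L) ^ 2 + 1)
        = h * (20 * L * w ^ 2 + (h * (20 * L) * w ^ 2 + 2 * h * (20 * L) ^ 2 + 1)) := by ring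
      _ < h * (κ * (w ^ 2) ^ 2) := this
      _ = κ * (h * (w ^ 2) ^ 2) := by ring
  · -- width
    have m1 : min lam (lam + ρ) - max 0 ρ ≥ 8 * κ := by
      rcases le_total 0 ρ with h0 | h0
      · rw [max_eq_right h0, min_eq_left (by linarith)]; linarith
      · rw [max_eq_left h0, min_eq_right (by linarith)]; linarith
    linarith
  · push_cast
    rw [one_div_one_div, hfF]

end Pool.Agent.MP_bf4c7f_par
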