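import Mathlib
import Pool.Agent.Lib.MP_bf4c7f_par.Final

/-!
# The parity of the number of prime factors in intervals around Oppermann's length

Theorem (`result`): let `t` be large, `n ≤ t^0.01` a positive integer and `|t' - t - √(n t)| ≤ t^0.498 / 2`.
Then at least one of the two short intervals `(t, t + t^0.498)`, `(t', t' + t^0.498)` contains both an
integer with an even number and an integer with an odd number of prime factors (`Ω`, counted with
multiplicity).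

Consequences, proved below:
* `single_interval` (`n = 1`): for all large `t` the interval `(t, t + √t + t^0.498)` contains integers of
  both kinds; for `t = x²` and `t = x² - x` this is Oppermann's length up to a factor `1 + x^(-0.003)`.
* `oppermann_intervals` (`n = (k' - k)²`): for large `k < k' ≤ k + (k / 2)^0.01` at least one of the
  half-intervals of Oppermann's conjecture that start at `⌊k² / 4⌋` and `⌊k'² / 4⌋` (squares and pronic
  numbers) contains integers of both kinds among its first `(k / 2)^0.996` elements.  So in every block of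
  `(k / 2)^0.01` consecutive half-intervals all but at most one contain integers of both kinds.
* `general_distance`: the same for two short intervals at any distance between `t^0.502` and `t^0.504`.

The proof is elementary.  Dividing by `n` one may assume `n = 1`.  If `Ω` has constant parity on both
intervals then, with `z = √t`, the parity of `Ω` is regular near `z` (steps of 1 inside thin zones; from `X Y`,
`(X + 1) Y` in the two intervals), hence near `y = √z` (steps of 2 at all non-resonant places; from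
`a (c + 1)`, `(a + 1) c` near `z`), hence near `√y` (from `a V`, `(a + 1) (V - F)`, `(a + 1) V`,
`(a + 2) (V - F)` near `y`): there `Ω(a)` and `Ω(a + 2)` have the same parity.  This contradicts `Ω(r²)` even,
`Ω(2 s²)` odd.
-/

set_option autoImplicit false

namespace Pool.Agent.Results.MP_bf4c7f_nt.ParityRepulsion

open ArithmeticFunction

/-- The open interval `(a, a + ℓ)` contains an integer with an even number and an integer with an odd
number of prime factors, counted with multiplicity (`cardFactors` is Mathlib's `Ω`). -/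
def BothParities (a ℓ : ℝ) : Prop :=
  (∃ m : ℕ, a < m ∧ (m : ℝ) < a + ℓ ∧ Even (cardFactors m)) ∧
  (∃ n : ℕ, a < n ∧ (n : ℝ) < a + ℓ ∧ Odd (cardFactors n))

/-- **Main result.** -/
theorem result : ∃ t₀ : ℝ, ∀ t t' : ℝ, t₀ ≤ t → ∀ n : ℕ, 0 < n → (n : ℝ) ≤ t ^ (0.01 : ℝ) →
    |t' - t - Real.sqrt (n * t)| ≤ t ^ (0.498 : ℝ) / 2 →
    BothParities t (t ^ (0.498 : ℝ)) ∨ BothParities t' (t ^ (0.498 : ℝ)) := by
  refine ⟨(24000 ^ 8 * 73984 ^ 18 * 3 ^ 62 : ℝ) ^ (1000 : ℕ), ?_⟩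
  intro t t' ht n hn hnt hd
  have ht0 : 0 < t := lt_of_lt_of_le (by positivity) ht
  have hr1000 : (t ^ (0.001 : ℝ)) ^ (1000 : ℕ) = t := by
    rw [← Real.rpow_natCast, ← Real.rpow_mul ht0.le]
    norm_num
  have hr498 : (t ^ (0.001 : ℝ)) ^ (498 : ℕ) = t ^ (0.498 : ℝ) := by
    rw [← Real.rpow_natCast, ← Real.rpow_mul ht0.le]
    norm_num
  have hr10 : (t ^ (0.001 : ℝ)) ^ (10 : ℕ) = t ^ (0.01 : ℝ) := by
    rw [← Real.rpow_natCast, ← Real.rpow_mul ht0.le]
    norm_num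
  have hr0 : 0 < t ^ (0.001 : ℝ) := Real.rpow_pos_of_pos ht0 _
  have hr : (24000 ^ 8 * 73984 ^ 18 * 3 ^ 62 : ℝ) ≤ t ^ (0.001 : ℝ) := by
    rw [← hr1000] at ht
    exact le_of_pow_le_pow_left₀ (by norm_num) hr0.le ht
  have := Pool.Agent.MP_bf4c7f_par.repulsion hr hr1000.symm hn (by rw [hr10]; exact hnt)
    (by rw [hr498]; exact hd)
  rw [hr498] at this
  exact this

theorem BothParities.mono {a ℓ b m : ℝ} (h : BothParities a ℓ) (h1 : b ≤ a) (h2 : a + ℓ ≤ b + m) :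
    BothParities b m := by
  obtain ⟨⟨x, hx1, hx2, hx3⟩, ⟨y, hy1, hy2, hy3⟩⟩ := h
  exact ⟨⟨x, by linarith, by linarith, hx3⟩, ⟨y, by linarith, by linarith, hy3⟩⟩

/-- Every interval of length `√t + t^0.498` contains integers of both kinds. -/
theorem single_interval : ∃ t₀ : ℝ, ∀ t : ℝ, t₀ ≤ t →
    BothParities t (Real.sqrt t + t ^ (0.498 : ℝ)) := by
  obtain ⟨t₀, h⟩ := result
  refine ⟨max t₀ 1, fun t ht => ?_⟩
  have ht1 : 1 ≤ t := le_trans (le_max_right _ _) ht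
  have ht0 : t₀ ≤ t := le_trans (le_max_left _ _) ht
  have hp : 0 ≤ t ^ (0.498 : ℝ) := Real.rpow_nonneg (by linarith) _
  have hs : 0 ≤ Real.sqrt t := Real.sqrt_nonneg t
  have hone : (((1 : ℕ) : ℝ)) ≤ t ^ (0.01 : ℝ) := by
    push_cast; exact Real.one_le_rpow ht1 (by norm_num)
  rcases h t (t + Real.sqrt t) ht0 1 one_pos hone
    (by
      have : t + Real.sqrt t - t - Real.sqrt (((1 : ℕ) : ℝ) * t) = 0 := by push_cast; ring_nf
      rw [this, abs_zero]; positivity) with h | h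
  · exact h.mono le_rfl (by linarith)
  · exact h.mono (by linarith) (by linarith)

/-- The same for two short intervals at any distance between `t^0.502` and `t^0.504`. -/
theorem general_distance : ∃ t₀ : ℝ, ∀ t t' : ℝ, t₀ ≤ t → t ^ (0.502 : ℝ) ≤ t' - t →
    t' - t ≤ t ^ (0.504 : ℝ) →
    BothParities t (t ^ (0.498 : ℝ)) ∨ BothParities t' (t ^ (0.498 : ℝ)) := by
  obtain ⟨t₀, h⟩ := result
  refine ⟨max t₀ (2 ^ (500 : ℕ)), fun t t' ht h1 h2 => ?_⟩
  have ht2 : (2 : ℝ) ^ (500 : ℕ) ≤ t := le_trans (le_max_right _ _) ht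
  have ht1 : 1 ≤ t := le_trans (one_le_pow₀ (by norm_num)) ht2
  have ht0 : t₀ ≤ t := le_trans (le_max_left _ _) ht
  have htp : 0 < t := lt_of_lt_of_le one_pos ht1
  set D : ℝ := t' - t with hD
  have hD0 : 0 < D := lt_of_lt_of_le (Real.rpow_pos_of_pos htp _) h1
  set n : ℕ := ⌊D ^ 2 / t + 1 / 2⌋₊ with hn
  have hx0 : 0 ≤ D ^ 2 / t := by positivity
  have hn1 : (n : ℝ) ≤ D ^ 2 / t + 1 / 2 := Nat.floor_le (by linarith)
  have hn2 : D ^ 2 / t + 1 / 2 < n + 1 := Nat.lt_floor_add_one _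
  -- D^2 / t ≥ 1
  have hlow : 1 ≤ D ^ 2 / t := by
    rw [le_div_iff₀ htp, one_mul]
    have e : (t ^ (0.502 : ℝ)) ^ 2 = t ^ (1.004 : ℝ) := by
      rw [← Real.rpow_natCast, ← Real.rpow_mul htp.le]; norm_num
    have h3 : t ≤ t ^ (1.004 : ℝ) := by
      have := Real.rpow_le_rpow_of_exponent_le ht1 (by norm_num : (1 : ℝ) ≤ 1.004)
      rwa [Real.rpow_one] at this
    have h4 := pow_le_pow_left₀ (Real.rpow_nonneg htp.le _) h1 2
    rw [e] at h4
    linarith
  have hup : D ^ 2 / t ≤ t ^ (0.008 : ℝ) := by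
    rw [div_le_iff₀ htp]
    have e : (t ^ (0.504 : ℝ)) ^ 2 = t ^ (0.008 : ℝ) * t := by
      rw [← Real.rpow_natCast, ← Real.rpow_mul htp.le]
      nth_rewrite 3 [← Real.rpow_one t]
      rw [← Real.rpow_add htp]; norm_num
    have h4 := pow_le_pow_left₀ hD0.le h2 2
    rw [e] at h4
    exact h4
  have hnpos : 0 < n := by
    have : (0 : ℝ) < n := by linarith
    exact_mod_cast this
  have h002 : 2 ≤ t ^ (0.002 : ℝ) := by
    have e : ((2 : ℝ) ^ (500 : ℕ)) ^ (0.002 : ℝ) = 2 := by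
      rw [← Real.rpow_natCast, ← Real.rpow_mul (by norm_num)]
      norm_num
    rw [← e]
    exact Real.rpow_le_rpow (by positivity) ht2 (by norm_num)
  have hnt : (n : ℝ) ≤ t ^ (0.01 : ℝ) := by
    have e : t ^ (0.01 : ℝ) = t ^ (0.008 : ℝ) * t ^ (0.002 : ℝ) := by
      rw [← Real.rpow_add htp]; norm_num
    have h5 : 1 ≤ t ^ (0.008 : ℝ) := Real.one_le_rpow ht1 (by norm_num)
    have h6 : t ^ (0.008 : ℝ) * 2 ≤ t ^ (0.008 : ℝ) * t ^ (0.002 : ℝ) :=
      mul_le_mul_of_nonneg_left h002 (by linarith)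
    rw [e]; linarith
  refine h t t' ht0 n hnpos hnt ?_
  rw [← hD]
  set σ : ℝ := Real.sqrt (n * t) with hσ
  have hσ0 : 0 ≤ σ := Real.sqrt_nonneg _
  have hσ2 : σ ^ 2 = n * t := Real.sq_sqrt (by positivity)
  have h7 : |D ^ 2 - σ ^ 2| ≤ t / 2 := by
    rw [hσ2]
    have e : D ^ 2 - n * t = (D ^ 2 / t - n) * t := by field_simp
    rw [e, abs_mul, abs_of_pos htp]
    have h7' : |D ^ 2 / t - n| ≤ 1 / 2 := by rw [abs_le]; constructor <;> linarith
    have := mul_le_mul_of_nonneg_right h7' htp.le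
    linarith
  have h8 : |D - σ| * D ≤ t / 2 := by
    have e : D ^ 2 - σ ^ 2 = (D - σ) * (D + σ) := by ring
    rw [e, abs_mul, abs_of_nonneg (by linarith : 0 ≤ D + σ)] at h7
    have : |D - σ| * D ≤ |D - σ| * (D + σ) :=
      mul_le_mul_of_nonneg_left (by linarith) (abs_nonneg _)
    linarith
  have e9 : t ^ (0.498 : ℝ) * t ^ (0.502 : ℝ) = t := by
    rw [← Real.rpow_add htp]; norm_num
  have h502 : 0 < t ^ (0.502 : ℝ) := Real.rpow_pos_of_pos htp _
  have h10 : |D - σ| * t ^ (0.502 : ℝ) ≤ t ^ (0.498 : ℝ) / 2 * t ^ (0.502 : ℝ) := by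
    have a1 : |D - σ| * t ^ (0.502 : ℝ) ≤ |D - σ| * D :=
      mul_le_mul_of_nonneg_left h1 (abs_nonneg _)
    have a2 : t ^ (0.498 : ℝ) / 2 * t ^ (0.502 : ℝ) = t / 2 := by
      have : t ^ (0.498 : ℝ) / 2 * t ^ (0.502 : ℝ) = t ^ (0.498 : ℝ) * t ^ (0.502 : ℝ) / 2 := by ring
      rw [this, e9]
    linarith
  exact le_of_mul_le_mul_right h10 h502

/-- Oppermann's half-intervals: among the half-intervals starting at `⌊k² / 4⌋` and `⌊k'² / 4⌋`,
`k < k' ≤ k + (k / 2)^0.01`, at least one contains both kinds near its beginning. -/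
theorem oppermann_intervals : ∃ k₀ : ℝ, ∀ k k' : ℕ, k₀ ≤ k → k < k' →
    (k' : ℝ) - k ≤ ((k : ℝ) / 2) ^ (0.01 : ℝ) →
    BothParities ((k : ℝ) ^ 2 / 4) (((k : ℝ) / 2) ^ (0.996 : ℝ)) ∨
    BothParities ((k' : ℝ) ^ 2 / 4) (((k : ℝ) / 2) ^ (0.996 : ℝ)) := by
  obtain ⟨t₀, h⟩ := result
  refine ⟨2 * (max t₀ 1), fun k k' hk hkk hh => ?_⟩
  set x : ℝ := (k : ℝ) / 2 with hx
  have hx1 : 1 ≤ x := by
    have := le_max_right t₀ 1
    rw [hx]; linarith
  have hxt : t₀ ≤ x := by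
    have := le_max_left t₀ 1
    rw [hx]; linarith
  have hx0 : 0 < x := by linarith
  obtain ⟨d, hd⟩ : ∃ d : ℕ, d = k' - k := ⟨_, rfl⟩
  have hdpos : 0 < d := by omega
  have hdR : (d : ℝ) = (k' : ℝ) - k := by
    have : d + k = k' := by omega
    have : (d : ℝ) + k = k' := by exact_mod_cast this
    linarith
  have hdx : (d : ℝ) ≤ x ^ (0.01 : ℝ) := by rw [hdR]; exact hh
  have hxx : x ≤ x ^ 2 := by nlinarith
  have e498 : (x ^ 2) ^ (0.498 : ℝ) = x ^ (0.996 : ℝ) := by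
    rw [← Real.rpow_natCast, ← Real.rpow_mul hx0.le]; norm_num
  have e01 : (x ^ 2) ^ (0.01 : ℝ) = (x ^ (0.01 : ℝ)) ^ 2 := by
    rw [← Real.rpow_natCast, ← Real.rpow_natCast, ← Real.rpow_mul hx0.le, ← Real.rpow_mul hx0.le]
    norm_num
  have ek : (k : ℝ) ^ 2 / 4 = x ^ 2 := by rw [hx]; ring
  have ek' : (k' : ℝ) ^ 2 / 4 = (x + d / 2) ^ 2 := by rw [hx, hdR]; ring
  have hd0 : (0 : ℝ) ≤ d := by positivity
  have hn : (((d ^ 2 : ℕ) : ℝ)) ≤ (x ^ 2) ^ (0.01 : ℝ) := by
    rw [e01]; push_cast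
    exact pow_le_pow_left₀ hd0 hdx 2
  have hsq : Real.sqrt (((d ^ 2 : ℕ) : ℝ) * x ^ 2) = d * x := by
    push_cast
    have : (d : ℝ) ^ 2 * x ^ 2 = (d * x) ^ 2 := by ring
    rw [this]
    exact Real.sqrt_sq (by positivity)
  have hdist : |(x + d / 2) ^ 2 - x ^ 2 - Real.sqrt (((d ^ 2 : ℕ) : ℝ) * x ^ 2)| ≤
      (x ^ 2) ^ (0.498 : ℝ) / 2 := by
    rw [hsq, e498]
    have e : (x + d / 2) ^ 2 - x ^ 2 - d * x = (d : ℝ) ^ 2 / 4 := by ring
    rw [e, abs_of_nonneg (by positivity)]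
    have a1 : (d : ℝ) ^ 2 ≤ (x ^ (0.01 : ℝ)) ^ 2 := pow_le_pow_left₀ hd0 hdx 2
    have a2 : (x ^ (0.01 : ℝ)) ^ 2 ≤ x ^ (0.996 : ℝ) := by
      rw [← Real.rpow_natCast, ← Real.rpow_mul hx0.le]
      exact Real.rpow_le_rpow_of_exponent_le hx1 (by norm_num)
    linarith
  have := h (x ^ 2) ((x + d / 2) ^ 2) (by linarith) (d ^ 2) (by positivity) hn hdist
  rw [e498] at this
  rw [ek, ek']
  exact this

end Pool.Agent.Results.MP_bf4c7f_nt.ParityRepulsion
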