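import Pool.Agent.Lib.MP_bf4c7f_par.Basic

/-! Level one near a fixed phase: the relation `par (X'+1) = par X' + δ` for all `X'` with
`(X' - y^2)/y` close to `ζ₀`. -/

namespace Pool.Agent.MP_bf4c7f_par

open ArithmeticFunction

/-- The data of level one: two parity constant intervals. `δ` is the sum of the two parities. -/
structure Pair (z L κ ρ : ℝ) (h : ℕ) (δ : ZMod 2) : Prop where
  hz : 0 < z
  hL : L ≤ 1
  hh : 0 < h
  hκ : 0 < κ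
  hs : ∃ s s' : ZMod 2, δ = s + s' ∧ (∀ n, InI (z ^ 2) (L * z) n → par n = s) ∧
    (∀ n, InI (z ^ 2 + (h + ρ) * z) (L * z) n → par n = s')

theorem spot {z L κ ρ : ℝ} {h : ℕ} {δ : ZMod 2} (P : Pair z L κ ρ h δ)
    {lo hi y ζ₀ E Z η : ℝ}
    (hlo : κ ≤ lo) (hlo' : ρ + κ ≤ lo) (hhi : hi ≤ L - κ) (hhi' : hi ≤ L + ρ - κ)
    (hy : 0 < y) (hzy : z = h * y ^ 2) (hE : 0 ≤ E) (hZ : |ζ₀| + E ≤ Z) (hZy : 2 * Z ≤ y)
    (hη : h * (E * (2 * Z)) + 2 * h * Z ^ 3 / y ≤ η)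
    (hsmall : h * Z * y + h * (h * Z * y + 2 * h * Z ^ 2 + 1) < κ * z)
    (m : ℤ) (h1 : lo + η ≤ m - 2 * z - h * ζ₀ ^ 2) (h2 : m - 2 * z - h * ζ₀ ^ 2 ≤ hi - η)
    (X' : ℕ) (hX : |(X' : ℝ) - y ^ 2 - ζ₀ * y| ≤ E * y) :
    par (X' + 1) = par X' + δ := by
  obtain ⟨hz, hL, hh, hκ, s, s', rfl, hs, hs'⟩ := P
  have hhR : (1 : ℝ) ≤ h := by exact_mod_cast hh
  set ζ : ℝ := (X' - y ^ 2) / y with hζ
  have hX' : (X' : ℝ) = y ^ 2 + ζ * y := by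
    rw [hζ]; field_simp; ring
  have hZ0 : 0 ≤ Z := le_trans (by positivity) hZ
  have hd : |ζ - ζ₀| ≤ E := by
    have e : (X' : ℝ) - y ^ 2 - ζ₀ * y = (ζ - ζ₀) * y := by rw [hX']; ring
    rw [e, abs_mul, abs_of_pos hy] at hX
    exact le_of_mul_le_mul_right hX hy
  have hζZ : |ζ| ≤ Z := by
    have : |ζ| ≤ |ζ₀| + |ζ - ζ₀| := by
      have := abs_add_le ζ₀ (ζ - ζ₀)
      simpa using this
    linarith
  obtain ⟨hζ1, hζ2⟩ := abs_le.mp hζZ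
  have hyζ : y / 2 ≤ y + ζ := by linarith
  have hyζ0 : 0 < y + ζ := by linarith
  have hXpos : (0 : ℝ) < X' := by
    rw [hX']
    have : y ^ 2 + ζ * y = y * (y + ζ) := by ring
    rw [this]; positivity
  have hXposN : 0 < X' := by exact_mod_cast hXpos
  set F : ℝ := ((h : ℝ) * X' - z) ^ 2 / ((h : ℝ) * X') with hF
  have hFeq : F = h * ζ ^ 2 * (y / (y + ζ)) := by
    rw [hF, hX', hzy]
    have hne : (h : ℝ) ≠ 0 := by positivity
    have e1 : ((h : ℝ) * (y ^ 2 + ζ * y) - h * y ^ 2) ^ 2 = (h * ζ * y) ^ 2 := by ring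
    have e2 : (h : ℝ) * (y ^ 2 + ζ * y) = h * y * (y + ζ) := by ring
    rw [e1, e2]
    field_simp
  have hFd : |F - h * ζ ^ 2| ≤ 2 * h * Z ^ 3 / y := by
    have e : F - h * ζ ^ 2 = -(h * ζ ^ 2 * ζ / (y + ζ)) := by
      rw [hFeq]; field_simp; ring
    rw [e, abs_neg, abs_div, abs_of_pos hyζ0, abs_mul, abs_mul, abs_of_nonneg (by positivity : (0:ℝ) ≤ (h:ℝ)),
      abs_of_nonneg (sq_nonneg ζ)]
    have hζ3 : ζ ^ 2 * |ζ| ≤ Z ^ 3 := by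
      rw [← sq_abs, ← pow_succ]
      exact pow_le_pow_left₀ (abs_nonneg _) hζZ 3
    calc (h : ℝ) * ζ ^ 2 * |ζ| / (y + ζ) ≤ h * Z ^ 3 / (y / 2) := by
          apply div_le_div₀
          · positivity
          · rw [mul_assoc]
            exact mul_le_mul_of_nonneg_left hζ3 (by positivity)
          · positivity
          · exact hyζ
      _ = 2 * h * Z ^ 3 / y := by field_simp
  have hsqd : |(h : ℝ) * ζ ^ 2 - h * ζ₀ ^ 2| ≤ h * (E * (2 * Z)) := by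
    have e : (h : ℝ) * ζ ^ 2 - h * ζ₀ ^ 2 = h * ((ζ - ζ₀) * (ζ + ζ₀)) := by ring
    rw [e, abs_mul, abs_mul, abs_of_nonneg (by positivity : (0:ℝ) ≤ (h:ℝ))]
    apply mul_le_mul_of_nonneg_left _ (by positivity)
    apply mul_le_mul hd _ (abs_nonneg _) hE
    have := abs_add_le ζ ζ₀
    have h0 : |ζ₀| ≤ Z := by linarith
    linarith
  have hFd2 : |F - h * ζ₀ ^ 2| ≤ η := by
    have := abs_add_le (F - h * ζ ^ 2) ((h : ℝ) * ζ ^ 2 - h * ζ₀ ^ 2)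
    have e : F - h * ζ ^ 2 + ((h : ℝ) * ζ ^ 2 - h * ζ₀ ^ 2) = F - h * ζ₀ ^ 2 := by ring
    rw [e] at this
    linarith
  obtain ⟨hF1, hF2⟩ := abs_le.mp hFd2
  have hFle : F ≤ 2 * h * Z ^ 2 := by
    rw [hFeq]
    have hfrac : y / (y + ζ) ≤ 2 := by
      rw [div_le_iff₀ hyζ0]; linarith
    have hζ2' : ζ ^ 2 ≤ Z ^ 2 := by
      rw [← sq_abs]; exact pow_le_pow_left₀ (abs_nonneg _) hζZ 2
    calc (h : ℝ) * ζ ^ 2 * (y / (y + ζ)) ≤ h * Z ^ 2 * 2 := by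
          apply mul_le_mul _ hfrac (by positivity) (by positivity)
          exact mul_le_mul_of_nonneg_left hζ2' (by positivity)
      _ = 2 * h * Z ^ 2 := by ring
  have hDle : |(h : ℝ) * X' - z| ≤ h * Z * y := by
    have e : (h : ℝ) * X' - z = h * ζ * y := by rw [hX', hzy]; ring
    rw [e, abs_mul, abs_mul, abs_of_pos hy, abs_of_nonneg (by positivity : (0:ℝ) ≤ (h:ℝ))]
    gcongr
  apply level_one hz hL hh hκ hs hs' hlo hlo' hhi hhi' X' hXposN m hF hDle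
  · have : (h : ℝ) * (h * Z * y + F + 1) ≤ h * (h * Z * y + 2 * h * Z ^ 2 + 1) := by
      gcongr
    linarith
  · linarith
  · linarith

end Pool.Agent.MP_bf4c7f_par
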